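import Pool.Agent.H21.Prof.Large

set_option autoImplicit false
set_option maxRecDepth 100000

namespace Pool.Agent.H21.Prof

open Function Equiv

/-- The alternating group on five letters. -/
abbrev A5 : Type := alternatingGroup (Fin 5)

theorem card_A5 : Nat.card A5 = 60 := by
  rw [Nat.card_eq_fintype_card]; decide +kernel

theorem A5_order5 : Nat.card {g : A5 // g ^ 5 = 1 ∧ g ≠ 1} = 24 := by
  rw [Nat.card_eq_fintype_card, Fintype.card_subtype]; decide +kernel

theorem A5_order3 : Nat.card {g : A5 // g ^ 3 = 1 ∧ g ≠ 1} = 20 := by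
  rw [Nat.card_eq_fintype_card, Fintype.card_subtype]; decide +kernel

theorem A5_orders : ∀ g : A5, g ^ 2 = 1 ∨ g ^ 3 = 1 ∨ g ^ 5 = 1 := by decide +kernel

theorem A5_two_points : ∀ i j : Fin 5, i ≠ j →
    Nat.card {g : A5 // g.1 i = i ∧ g.1 j = j} = 3 := by
  have : ∀ i j : Fin 5, i ≠ j →
    (Finset.univ.filter (fun g : A5 => g.1 i = i ∧ g.1 j = j)).card = 3 := by decide +kernel
  intro i j hij
  rw [Nat.card_eq_fintype_card, Fintype.card_subtype]
  exact this i j hij

theorem A5_point : ∀ i : Fin 5, Nat.card {g : A5 // g.1 i = i} = 12 := by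
  have : ∀ i : Fin 5, (Finset.univ.filter (fun g : A5 => g.1 i = i)).card = 12 := by
    decide +kernel
  intro i
  rw [Nat.card_eq_fintype_card, Fintype.card_subtype]
  exact this i

/-- The symmetric group on four letters is solvable. -/
theorem solvable_S4 : Group.IsSolvable (Perm (Fin 4)) := by
  have h4 : Nat.card (Fin 4) = 4 := by simp
  have hV : Group.IsSolvable (commutator (alternatingGroup (Fin 4))) := by
    rw [← alternatingGroup.kleinFour_eq_commutator h4]
    have h1 := alternatingGroup.kleinFour_card_of_card_eq_four h4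
    have : Fact (Nat.Prime 2) := ⟨Nat.prime_two⟩
    have hp : IsPGroup 2 (alternatingGroup.kleinFour (Fin 4)) :=
      IsPGroup.of_card (n := 2) (by rw [h1]; norm_num)
    have := hp.isNilpotent
    infer_instance
  have hA : Group.IsSolvable (alternatingGroup (Fin 4)) := by
    apply solvable_of_ker_le_range (commutator (alternatingGroup (Fin 4))).subtype
      (Abelianization.of (G := alternatingGroup (Fin 4)))
    rw [Abelianization.ker_of, Subgroup.range_subtype]
  apply solvable_of_ker_le_range (alternatingGroup (Fin 4)).subtype (Perm.sign (α := Fin 4))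
  rw [Subgroup.range_subtype]
  exact le_refl _

/-- The stabiliser of a point. -/
def stab (i : Fin 5) : Subgroup A5 where
  carrier := {g | g.1 i = i}
  mul_mem' := fun {a b} ha hb => by
    change a.1 (b.1 i) = i
    change a.1 i = i at ha
    change b.1 i = i at hb
    rw [hb, ha]
  one_mem' := rfl
  inv_mem' := fun {a} ha => by
    change a.1 i = i at ha
    change a.1.symm i = i
    rw [Equiv.symm_apply_eq]
    exact ha.symm

theorem mem_stab {i : Fin 5} {g : A5} : g ∈ stab i ↔ g.1 i = i := Iff.rfl

theorem card_stab (i : Fin 5) : Nat.card (stab i) = 12 := A5_point i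

theorem solvable_stab (i : Fin 5) : Group.IsSolvable (stab i) := by
  have hiff : ∀ (g : stab i) (j : Fin 5), (g.1.1 j ≠ i) ↔ j ≠ i := by
    intro g j
    have hg : g.1.1 i = i := g.2
    rw [not_iff_not]
    constructor
    · intro h
      apply g.1.1.injective
      rw [h, hg]
    · rintro rfl; exact hg
  let ρ : stab i →* Perm {j : Fin 5 // j ≠ i} :=
    { toFun := fun g => (g.1.1).subtypePerm (hiff g)
      map_one' := by ext j; rfl
      map_mul' := fun g h => by ext j; rfl }
  have hρ : Injective ρ := by
    intro g h hgh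
    apply Subtype.ext
    apply Subtype.ext
    ext j
    by_cases hj : j = i
    · subst hj
      have h1 : g.1.1 j = j := g.2
      have h2 : h.1.1 j = j := h.2
      rw [h1, h2]
    · have := congrArg (fun σ : Perm {j : Fin 5 // j ≠ i} => (σ ⟨j, hj⟩ : Fin 5)) hgh
      exact congrArg Fin.val this
  have hcard : Fintype.card {j : Fin 5 // j ≠ i} = Fintype.card (Fin 4) := by
    rw [Fintype.card_subtype_compl]; simp
  have e : {j : Fin 5 // j ≠ i} ≃ Fin 4 := Fintype.equivOfCardEq hcard
  have := solvable_S4
  have : Group.IsSolvable (Perm {j : Fin 5 // j ≠ i}) :=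
    solvable_of_solvable_injective (f := e.permCongrHom.toMonoidHom) e.permCongrHom.injective
  exact solvable_of_solvable_injective hρ

section
variable {G : Type} [Group G] [TopologicalSpace G] [IsTopologicalGroup G]

theorem hh_stab (R : Reg G) (i : Fin 5) : hh G (stab i) = hh G (Z 2) ^ 2 * hh G (Z 3) := by
  have := solvable_stab i
  rw [R.solv (stab i), card_stab, show (12 : ℕ) = 2 ^ 2 * 3 by norm_num,
    cc_mul (by norm_num) (by norm_num), cc_pow (by norm_num), cc_prime Nat.prime_two,
    cc_prime Nat.prime_three]

end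

end Pool.Agent.H21.Prof
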