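import Pool.Agent.H21.Prof.A5Sub

set_option autoImplicit false
set_option maxRecDepth 100000

namespace Pool.Agent.H21.Prof

open Function Equiv

variable {G : Type} [Group G] [TopologicalSpace G] [IsTopologicalGroup G]

/-- Homomorphisms onto a subgroup of prime order. -/
theorem card_range_prime (R : Reg G) {K : Type} [Group K] [Finite K] (B : Subgroup K) {q : ℕ}
    (hq : q.Prime) (hB : Nat.card B = q) :
    Nat.card {φ : CH G K // φ.1.range = B} + 1 = hh G (Z q) := by
  have hfin := R.fin K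
  rw [← hh_prime hq hB, hh_sub]
  have h1 := card_split (W := {φ : CH G K // φ.1.range ≤ B}) (fun φ => φ.1.1.range = B)
  have e1 : Nat.card {φ : {φ : CH G K // φ.1.range ≤ B} // φ.1.1.range = B} =
      Nat.card {φ : CH G K // φ.1.range = B} := by
    apply Nat.card_congr
    exact
      { toFun := fun φ => ⟨φ.1.1, φ.2⟩
        invFun := fun φ => ⟨⟨φ.1, φ.2.le⟩, φ.2⟩
        left_inv := fun φ => rfl
        right_inv := fun φ => rfl }
  have e2 : Nat.card {φ : {φ : CH G K // φ.1.range ≤ B} // ¬ φ.1.1.range = B} = 1 := by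
    rw [Nat.card_eq_one_iff_unique]
    have hdv : ∀ A : Subgroup K, A ≤ B → A ≠ B → A = ⊥ := by
      intro A hA hne
      have h2 := Subgroup.card_dvd_of_le hA
      rw [hB] at h2
      rcases (Nat.dvd_prime hq).mp h2 with h3 | h3
      · exact Subgroup.eq_bot_of_card_eq A h3
      · exact absurd (Subgroup.eq_of_le_of_card_ge hA (by rw [h3, hB])) hne
    have hone : ∀ φ : {φ : {φ : CH G K // φ.1.range ≤ B} // ¬ φ.1.1.range = B},
        φ.1.1 = 1 := by
      intro φ
      have h2 := hdv _ φ.1.2 φ.2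
      apply ch_ext
      intro g
      have : φ.1.1.1 g ∈ φ.1.1.1.range := ⟨g, rfl⟩
      rw [h2] at this
      exact this
    refine ⟨⟨fun a b => Subtype.ext (Subtype.ext ((hone a).trans (hone b).symm))⟩, ⟨⟨⟨1, ?_⟩, ?_⟩⟩⟩
    · rintro x ⟨g, rfl⟩
      exact B.one_mem
    · intro h
      have h3 : Nat.card (1 : CH G K).1.range = q := by rw [h, hB]
      have h4 : (1 : CH G K).1.range = ⊥ := by
        rw [eq_bot_iff]
        rintro x ⟨g, rfl⟩
        exact Subgroup.mem_bot.mpr rfl
      rw [h4] at h3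
      simp at h3
      exact hq.one_lt.ne h3
  omega

/-- Homomorphisms onto a subgroup of order `2r` of the alternating group on five letters. -/
theorem card_range_dihedral (R : Reg G) {r : ℕ} (hr : r.Prime) (hr2 : r ≠ 2)
    (B : Subgroup A5) (hB : Nat.card B = 2 * r) (P : Subgroup A5) (hP : Nat.card P = r)
    (hPB : P ≤ B) :
    Nat.card {φ : CH G A5 // φ.1.range = B} + hh G (Z r) + r * (hh G (Z 2) - 1) ≤
      hh G (Z 2) * hh G (Z r) := by
  classical
  have hfin := R.fin A5
  have hodd : Odd r := hr.odd_of_ne_two hr2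
  -- `P` is normal in `B` of index two
  have hc1 : Nat.card (P.subgroupOf B) = r := by
    rw [Nat.card_congr (Subgroup.subgroupOfEquivOfLe hPB).toEquiv]
    exact hP
  have hidx : (P.subgroupOf B).index = 2 := by
    have := Subgroup.card_mul_index (P.subgroupOf B)
    rw [hc1, hB, mul_comm 2 r] at this
    exact Nat.eq_of_mul_eq_mul_left hr.pos this
  have hPn : (P.subgroupOf B).Normal := Subgroup.normal_of_index_eq_two hidx
  have htot : hh G B = hh G (Z 2) * hh G (Z r) := by
    rw [R.mul_quot (P.subgroupOf B), hh_prime hr hc1]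
    congr 1
    exact hh_prime Nat.prime_two hidx
  rw [← htot, hh_sub]
  -- the elements outside `P` are involutions
  have hmem : ∀ t : A5, t ∈ B → ∀ m : ℕ, Odd m → t ^ m = 1 → t ∈ P := by
    intro t ht m hm htm
    have h1 : ((⟨t, ht⟩ : B) : B ⧸ P.subgroupOf B) = 1 := by
      have h2 : ((⟨t, ht⟩ : B) : B ⧸ P.subgroupOf B) ^ 2 = 1 := by
        have := pow_card_eq_one' (x := ((⟨t, ht⟩ : B) : B ⧸ P.subgroupOf B))
        have h3 : Nat.card (B ⧸ P.subgroupOf B) = 2 := hidx
        rwa [h3] at this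
      have h3 : ((⟨t, ht⟩ : B) : B ⧸ P.subgroupOf B) ^ m = 1 := by
        rw [← QuotientGroup.mk_pow]
        have : (⟨t, ht⟩ : B) ^ m = 1 := Subtype.ext htm
        rw [this]; rfl
      have h4 := orderOf_dvd_of_pow_eq_one h2
      have h5 := orderOf_dvd_of_pow_eq_one h3
      have h6 : Nat.Coprime 2 m := (Nat.coprime_two_left).mpr hm
      have h7 := Nat.eq_one_of_dvd_coprimes h6 h4 h5
      exact orderOf_eq_one_iff.mp h7
    rw [QuotientGroup.eq_one_iff, Subgroup.mem_subgroupOf] at h1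
    exact h1
  have hinv : ∀ t : {t : A5 // t ∈ B ∧ t ∉ P}, orderOf t.1 = 2 := by
    rintro ⟨t, htB, htP⟩
    rcases A5_orders t with h | h | h
    · exact orderOf_eq_prime h (fun h1 => htP (by
        have h2 : t = 1 := h1
        rw [h2]; exact P.one_mem))
    · exact absurd (hmem t htB 3 (by decide) h) htP
    · exact absurd (hmem t htB 5 (by decide) h) htP
  have hcz : ∀ t : {t : A5 // t ∈ B ∧ t ∉ P}, Nat.card (Subgroup.zpowers t.1) = 2 := fun t => by
    rw [Nat.card_zpowers, hinv t]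
  have hcinv : Nat.card {t : A5 // t ∈ B ∧ t ∉ P} = r := by
    have h1 := card_split (W := {t : A5 // t ∈ B}) (fun t => t.1 ∈ P)
    have e1 : Nat.card {t : {t : A5 // t ∈ B} // ¬ t.1 ∈ P} =
        Nat.card {t : A5 // t ∈ B ∧ t ∉ P} :=
      Nat.card_congr (Equiv.subtypeSubtypeEquivSubtypeInter _ (fun t : A5 => ¬ t ∈ P))
    have e2 : Nat.card {t : {t : A5 // t ∈ B} // t.1 ∈ P} = r := by
      rw [← hP]
      apply Nat.card_congr
      exact
        { toFun := fun t => ⟨t.1.1, t.2⟩
          invFun := fun t => ⟨⟨t.1, hPB t.2⟩, t.2⟩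
          left_inv := fun t => rfl
          right_inv := fun t => rfl }
    have e3 : Nat.card {t : A5 // t ∈ B} = 2 * r := hB
    omega
  have hx : ∀ t : {t : A5 // t ∈ B ∧ t ∉ P},
      Nat.card {φ : CH G A5 // φ.1.range = Subgroup.zpowers t.1} = hh G (Z 2) - 1 := by
    intro t
    have := card_range_prime R (Subgroup.zpowers t.1) Nat.prime_two (hcz t)
    omega
  have hw : Nat.card {φ : CH G A5 // φ.1.range ≤ P} = hh G (Z r) := by
    rw [← hh_sub, hh_prime hr hP]
  have hsum : Nat.card (Σ t : {t : A5 // t ∈ B ∧ t ∉ P},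
      {φ : CH G A5 // φ.1.range = Subgroup.zpowers t.1}) = r * (hh G (Z 2) - 1) := by
    rw [Nat.card_sigma, Finset.sum_congr rfl (fun t _ => hx t)]
    simp only [Finset.sum_const, Finset.card_univ, smul_eq_mul]
    rw [← Nat.card_eq_fintype_card, hcinv]
  rw [← hw, ← hsum, ← Nat.card_sum, ← Nat.card_sum]
  have hodd1 : ∀ A : Subgroup A5, A ≤ P → ∀ t : {t : A5 // t ∈ B ∧ t ∉ P},
      A ≠ Subgroup.zpowers t.1 := by
    intro A hA t h
    apply t.2.2
    apply hA
    rw [h]
    exact Subgroup.mem_zpowers _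
  have hBP : ¬ B ≤ P := by
    intro h
    have := Subgroup.card_le_of_le h
    rw [hB, hP] at this
    have := hr.pos
    omega
  apply Nat.card_le_card_of_injective (fun s : ({φ : CH G A5 // φ.1.range = B} ⊕
      {φ : CH G A5 // φ.1.range ≤ P}) ⊕ (Σ t : {t : A5 // t ∈ B ∧ t ∉ P},
      {φ : CH G A5 // φ.1.range = Subgroup.zpowers t.1}) =>
    (match s with
      | Sum.inl (Sum.inl φ) => ⟨φ.1, φ.2.le⟩
      | Sum.inl (Sum.inr φ) => ⟨φ.1, φ.2.trans hPB⟩
      | Sum.inr ⟨t, φ⟩ => ⟨φ.1, by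
        rw [φ.2, Subgroup.zpowers_le]; exact t.2.1⟩ : {φ : CH G A5 // φ.1.range ≤ B}))
  rintro ((⟨φ, hφ⟩ | ⟨φ, hφ⟩) | ⟨t, φ, hφ⟩) ((⟨ψ, hψ⟩ | ⟨ψ, hψ⟩) | ⟨u, ψ, hψ⟩) h
  · have : φ = ψ := congrArg Subtype.val h
    subst this; rfl
  · have : φ = ψ := congrArg Subtype.val h
    subst this
    exact absurd (hφ ▸ hψ) hBP
  · have : φ = ψ := congrArg Subtype.val h
    subst this
    exfalso
    have h1 := hcz u
    rw [← hψ, hφ, hB] at h1
    have := hr.two_le
    omega
  · have : φ = ψ := congrArg Subtype.val h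
    subst this
    exact absurd (hψ ▸ hφ) hBP
  · have : φ = ψ := congrArg Subtype.val h
    subst this; rfl
  · have : φ = ψ := congrArg Subtype.val h
    subst this
    exact absurd hψ (hodd1 _ hφ u)
  · have : φ = ψ := congrArg Subtype.val h
    subst this
    exfalso
    have h1 := hcz t
    rw [← hφ, hψ, hB] at h1
    have := hr.two_le
    omega
  · have : φ = ψ := congrArg Subtype.val h
    subst this
    exact absurd hφ (hodd1 _ hψ t)
  · have : φ = ψ := congrArg Subtype.val h
    subst this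
    have htu : t = u := by
      have h1 : t.1 ∈ Subgroup.zpowers u.1 := by
        rw [← hψ, hφ]; exact Subgroup.mem_zpowers _
      have h2 := hinv u
      have h3 := hinv t
      -- an element of order two in a group of order two
      have h4 : t.1 = u.1 := by
        obtain ⟨k, hk⟩ := h1
        have hk' : u.1 ^ k = t.1 := hk
        rcases Int.even_or_odd k with ⟨m, hm⟩ | ⟨m, hm⟩
        · exfalso
          have : t.1 = 1 := by
            rw [← hk', hm, ← two_mul, zpow_mul]
            have h5 : u.1 ^ (2 : ℤ) = 1 := by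
              have := pow_orderOf_eq_one u.1
              rw [h2] at this
              exact_mod_cast this
            rw [h5, one_zpow]
          rw [this] at h3
          simp at h3
        · rw [← hk', hm, zpow_add, zpow_mul]
          have h5 : u.1 ^ (2 : ℤ) = 1 := by
            have := pow_orderOf_eq_one u.1
            rw [h2] at this
            exact_mod_cast this
          rw [h5, one_zpow, one_mul, zpow_one]
      exact Subtype.ext h4
    subst htu
    rfl

/-- The upper bound for the number of homomorphisms to the alternating group on five letters. -/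
theorem a5_bound (R : Reg G) (hns : ∀ φ : CH G A5, φ.1.range ≠ ⊤) :
    hh G A5 ≤ 5 * (hh G (Z 2) ^ 2 * hh G (Z 3)) + 6 * (hh G (Z 5) - 1) +
      6 * (hh G (Z 2) * hh G (Z 5) - (hh G (Z 5) + 5 * (hh G (Z 2) - 1))) +
      10 * (hh G (Z 2) * hh G (Z 3) - (hh G (Z 3) + 3 * (hh G (Z 2) - 1))) := by
  classical
  have hfin := R.fin A5
  have := Fintype.ofFinite (Sylow 5 A5)
  have := Fintype.ofFinite (Sylow 3 A5)
  have hP5 : ∀ P : Sylow 5 A5, Nat.card (P : Subgroup A5) = 5 := fun P =>
    sylow_card a5_5.1 a5_5.2 P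
  have hP3 : ∀ P : Sylow 3 A5, Nat.card (P : Subgroup A5) = 3 := fun P =>
    sylow_card a5_3.1 a5_3.2 P
  have e1 : Nat.card (Σ i : Fin 5, {φ : CH G A5 // φ.1.range ≤ stab i}) =
      5 * (hh G (Z 2) ^ 2 * hh G (Z 3)) := by
    rw [Nat.card_sigma, Finset.sum_congr rfl (fun i _ => by
      rw [← hh_sub, hh_stab R i])]
    simp
  have e2 : Nat.card (Σ P : Sylow 5 A5, {φ : CH G A5 // φ.1.range = (P : Subgroup A5)}) =
      6 * (hh G (Z 5) - 1) := by
    have h1 : ∀ P : Sylow 5 A5, Nat.card {φ : CH G A5 // φ.1.range = (P : Subgroup A5)} =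
        hh G (Z 5) - 1 := by
      intro P
      have := card_range_prime R (P : Subgroup A5) Nat.prime_five (hP5 P)
      omega
    rw [Nat.card_sigma, Finset.sum_congr rfl (fun P _ => h1 P)]
    simp only [Finset.sum_const, Finset.card_univ, smul_eq_mul]
    rw [← Nat.card_eq_fintype_card, card_syl5]
  have e3 : Nat.card (Σ P : Sylow 5 A5, {φ : CH G A5 //
      φ.1.range = Subgroup.normalizer (P : Set A5)}) ≤
      6 * (hh G (Z 2) * hh G (Z 5) - (hh G (Z 5) + 5 * (hh G (Z 2) - 1))) := by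
    have h1 : ∀ P : Sylow 5 A5, Nat.card {φ : CH G A5 //
        φ.1.range = Subgroup.normalizer (P : Set A5)} ≤
        hh G (Z 2) * hh G (Z 5) - (hh G (Z 5) + 5 * (hh G (Z 2) - 1)) := by
      intro P
      have := card_range_dihedral R Nat.prime_five (by norm_num)
        (Subgroup.normalizer (P : Set A5)) (card_norm5 P) P (hP5 P) Subgroup.le_normalizer
      omega
    rw [Nat.card_sigma]
    refine (Finset.sum_le_sum (fun P _ => h1 P)).trans ?_
    simp only [Finset.sum_const, Finset.card_univ, smul_eq_mul]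
    rw [← Nat.card_eq_fintype_card, card_syl5]
  have e4 : Nat.card (Σ P : Sylow 3 A5, {φ : CH G A5 //
      φ.1.range = Subgroup.normalizer (P : Set A5)}) ≤
      10 * (hh G (Z 2) * hh G (Z 3) - (hh G (Z 3) + 3 * (hh G (Z 2) - 1))) := by
    have h1 : ∀ P : Sylow 3 A5, Nat.card {φ : CH G A5 //
        φ.1.range = Subgroup.normalizer (P : Set A5)} ≤
        hh G (Z 2) * hh G (Z 3) - (hh G (Z 3) + 3 * (hh G (Z 2) - 1)) := by
      intro P
      have := card_range_dihedral R Nat.prime_three (by norm_num)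
        (Subgroup.normalizer (P : Set A5)) (card_norm3 P) P (hP3 P) Subgroup.le_normalizer
      omega
    rw [Nat.card_sigma]
    refine (Finset.sum_le_sum (fun P _ => h1 P)).trans ?_
    simp only [Finset.sum_const, Finset.card_univ, smul_eq_mul]
    rw [← Nat.card_eq_fintype_card, card_syl3]
  -- the covering
  have hcov : ∀ φ : CH G A5, ∃ s : ((Σ i : Fin 5, {φ : CH G A5 // φ.1.range ≤ stab i}) ⊕
      (Σ P : Sylow 5 A5, {φ : CH G A5 // φ.1.range = (P : Subgroup A5)})) ⊕
      ((Σ P : Sylow 5 A5, {φ : CH G A5 // φ.1.range = Subgroup.normalizer (P : Set A5)}) ⊕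
      (Σ P : Sylow 3 A5, {φ : CH G A5 // φ.1.range = Subgroup.normalizer (P : Set A5)})),
      (match s with
      | Sum.inl (Sum.inl a) => a.2.1
      | Sum.inl (Sum.inr a) => a.2.1
      | Sum.inr (Sum.inl a) => a.2.1
      | Sum.inr (Sum.inr a) => a.2.1) = φ := by
    intro φ
    rcases a5_subgroups φ.1.range (hns φ) with ⟨i, h⟩ | ⟨P, h⟩ | ⟨P, h⟩ | ⟨P, h⟩
    · exact ⟨Sum.inl (Sum.inl ⟨i, φ, h⟩), rfl⟩
    · exact ⟨Sum.inl (Sum.inr ⟨P, φ, h⟩), rfl⟩
    · exact ⟨Sum.inr (Sum.inl ⟨P, φ, h⟩), rfl⟩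
    · exact ⟨Sum.inr (Sum.inr ⟨P, φ, h⟩), rfl⟩
  choose S hS using hcov
  have hinj : Injective S := by
    intro φ ψ h
    rw [← hS φ, ← hS ψ, h]
  have h9 := Nat.card_le_card_of_injective S hinj
  rw [Nat.card_sum, Nat.card_sum, Nat.card_sum, e1, e2] at h9
  change hh G A5 ≤ _ at h9
  omega

end Pool.Agent.H21.Prof
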