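import Pool.Agent.H21.Prof.A5

set_option autoImplicit false
set_option maxRecDepth 100000

namespace Pool.Agent.H21.Prof

open Function Equiv

section gen
variable {K : Type} [Group K] [Finite K] {p : ℕ} [hp : Fact p.Prime]

/-- Counting elements of order `p` when Sylow `p`-subgroups have order `p`. -/
theorem card_order_p (hpK : p ∣ Nat.card K) (hp2 : ¬ p ^ 2 ∣ Nat.card K) :
    Nat.card {x : K // x ^ p = 1 ∧ x ≠ 1} = Nat.card (Sylow p K) * (p - 1) := by
  classical
  have := Fintype.ofFinite (Sylow p K)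
  have hord : ∀ x : K, x ^ p = 1 ∧ x ≠ 1 → orderOf x = p := fun x hx =>
    orderOf_eq_prime hx.1 hx.2
  have h1 : ∀ (P : Sylow p K) (x : P), (x : K) ^ p = 1 := by
    intro P x
    have h2 : x ^ Nat.card P = 1 := pow_card_eq_one'
    rw [sylow_card hpK hp2 P] at h2
    have := congrArg (Subtype.val) h2
    simpa using this
  have e : Nat.card (Σ P : Sylow p K, {x : P // x ≠ 1}) =
      Nat.card {x : K // x ^ p = 1 ∧ x ≠ 1} := by
    apply Nat.card_eq_of_bijective (fun y : (Σ P : Sylow p K, {x : P // x ≠ 1}) =>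
      (⟨(y.2.1 : K), h1 y.1 y.2.1, fun h => y.2.2 (Subtype.ext h)⟩ :
        {x : K // x ^ p = 1 ∧ x ≠ 1}))
    constructor
    · rintro ⟨P, x, hx⟩ ⟨Q, y, hy⟩ hxy
      have hxy' : (x : K) = (y : K) := congrArg Subtype.val hxy
      have hPQ : P = Q := by
        have ho : orderOf (x : K) = p := hord _ ⟨h1 P x, fun h => hx (Subtype.ext h)⟩
        apply Sylow.ext
        rw [sylow_eq_zpowers hpK hp2 P ho (Subgroup.le_normalizer x.2),
          sylow_eq_zpowers hpK hp2 Q ho (Subgroup.le_normalizer (by rw [hxy']; exact y.2))]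
      subst hPQ
      have : x = y := Subtype.ext hxy'
      subst this
      rfl
    · rintro ⟨x, hx⟩
      have ho := hord x hx
      have hc : Nat.card (Subgroup.zpowers x) = p := by rw [Nat.card_zpowers, ho]
      have hpg : IsPGroup p (Subgroup.zpowers x) :=
        IsPGroup.of_card (n := 1) (by rw [hc, pow_one])
      obtain ⟨P, hP⟩ := hpg.exists_le_sylow
      exact ⟨⟨P, ⟨x, hP (Subgroup.mem_zpowers x)⟩, fun h => hx.2 (congrArg Subtype.val h)⟩, rfl⟩
  rw [← e, Nat.card_sigma]
  have h3 : ∀ P : Sylow p K, Nat.card {x : P // x ≠ 1} = p - 1 := by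
    intro P
    have h7 : Nat.card {x : P // ¬ x = 1} + Nat.card {x : P // x = 1} = p := by
      rw [card_split]
      exact sylow_card hpK hp2 P
    have h4 : Nat.card {x : P // x = 1} = 1 := by
      rw [Nat.card_eq_one_iff_unique]
      exact ⟨⟨fun a b => Subtype.ext (a.2.trans b.2.symm)⟩, ⟨⟨1, rfl⟩⟩⟩
    rw [h4] at h7
    change Nat.card {x : P // ¬ x = 1} = p - 1
    omega
  rw [Finset.sum_congr rfl (fun P _ => h3 P)]
  simp

/-- A subgroup with a normal subgroup of order `p` lies in the normaliser of a Sylow subgroup. -/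
theorem le_normalizer_of_unique (hpK : p ∣ Nat.card K) (hp2 : ¬ p ^ 2 ∣ Nat.card K)
    (B : Subgroup K) (Q : Subgroup B) (hQ : Nat.card Q = p) (hQn : Q.Normal) :
    ∃ P : Sylow p K, Q.map B.subtype = (P : Subgroup K) ∧
      B ≤ Subgroup.normalizer (P : Set K) := by
  have hc : Nat.card (Q.map B.subtype) = p := by
    rw [Subgroup.card_map_of_injective B.subtype_injective, hQ]
  have hpg : IsPGroup p (Q.map B.subtype) := IsPGroup.of_card (n := 1) (by rw [hc, pow_one])
  obtain ⟨P, hP⟩ := hpg.exists_le_sylow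
  have he : Q.map B.subtype = (P : Subgroup K) := by
    apply Subgroup.eq_of_le_of_card_ge hP
    rw [hc]
    exact (sylow_card hpK hp2 P).le
  refine ⟨P, he, ?_⟩
  intro b hb
  have h3 : (P : Set K) = ((Q.map B.subtype : Subgroup K) : Set K) := by rw [he]; rfl
  rw [h3, Subgroup.mem_normalizer_iff]
  intro h
  constructor
  · rintro ⟨q, hq, rfl⟩
    exact ⟨⟨b, hb⟩ * q * ⟨b, hb⟩⁻¹, hQn.conj_mem q hq ⟨b, hb⟩, rfl⟩
  · rintro ⟨q, hq, hqe⟩
    refine ⟨⟨b, hb⟩⁻¹ * q * ⟨b, hb⟩, ?_, ?_⟩
    · have := hQn.conj_mem q hq (⟨b, hb⟩⁻¹)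
      rwa [inv_inv] at this
    · have hqe' : (q : K) = b * h * b⁻¹ := hqe
      change b⁻¹ * (q : K) * b = h
      rw [hqe']; group

/-- A subgroup of order `2p`, when normalisers of Sylow subgroups have order `2p`. -/
theorem eq_normalizer_of_card (hpK : p ∣ Nat.card K) (hp2 : ¬ p ^ 2 ∣ Nat.card K)
    (hN : ∀ P : Sylow p K, Nat.card (Subgroup.normalizer (P : Set K)) = 2 * p)
    (B : Subgroup K) (hB : Nat.card B = 2 * p) :
    ∃ P : Sylow p K, B = Subgroup.normalizer (P : Set K) := by
  have hpB : p ∣ Nat.card B := by rw [hB]; exact Dvd.intro_left 2 rfl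
  have hp2B : ¬ p ^ 2 ∣ Nat.card B := by
    intro h
    exact hp2 (h.trans (Subgroup.card_subgroup_dvd_card B))
  have Q : Sylow p B := default
  have hQ : Nat.card Q = p := sylow_card hpB hp2B Q
  have hidx : (Q : Subgroup B).index = 2 := by
    have := Subgroup.card_mul_index (Q : Subgroup B)
    have hQ' : Nat.card (Q : Subgroup B) = p := hQ
    rw [hQ', hB, mul_comm 2 p] at this
    exact Nat.eq_of_mul_eq_mul_left hp.out.pos this
  have hQn : (Q : Subgroup B).Normal := Subgroup.normal_of_index_eq_two hidx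
  obtain ⟨P, hP, hle⟩ := le_normalizer_of_unique hpK hp2 B Q hQ hQn
  refine ⟨P, ?_⟩
  apply Subgroup.eq_of_le_of_card_ge hle
  rw [hN P, hB]

end gen

instance fact3 : Fact (Nat.Prime 3) := ⟨Nat.prime_three⟩
instance fact5 : Fact (Nat.Prime 5) := ⟨Nat.prime_five⟩

theorem a5_3 : 3 ∣ Nat.card A5 ∧ ¬ 3 ^ 2 ∣ Nat.card A5 := by rw [card_A5]; norm_num
theorem a5_5 : 5 ∣ Nat.card A5 ∧ ¬ 5 ^ 2 ∣ Nat.card A5 := by rw [card_A5]; norm_num

theorem card_syl3 : Nat.card (Sylow 3 A5) = 10 := by
  have h := card_order_p (K := A5) (p := 3) a5_3.1 a5_3.2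
  rw [A5_order3] at h
  omega

theorem card_syl5 : Nat.card (Sylow 5 A5) = 6 := by
  have h := card_order_p (K := A5) (p := 5) a5_5.1 a5_5.2
  rw [A5_order5] at h
  omega

theorem card_norm3 (P : Sylow 3 A5) : Nat.card (Subgroup.normalizer (P : Set A5)) = 2 * 3 := by
  have h1 := P.card_eq_index_normalizer
  have h2 := Subgroup.card_mul_index (Subgroup.normalizer (P : Set A5))
  rw [← h1, card_syl3, card_A5] at h2
  omega

theorem card_norm5 (P : Sylow 5 A5) : Nat.card (Subgroup.normalizer (P : Set A5)) = 2 * 5 := by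
  have h1 := P.card_eq_index_normalizer
  have h2 := Subgroup.card_mul_index (Subgroup.normalizer (P : Set A5))
  rw [← h1, card_syl5, card_A5] at h2
  omega

/-- Proper subgroups of order divisible by five. -/
theorem a5_case5 (B : Subgroup A5) (h5 : 5 ∣ Nat.card B) (hB : B ≠ ⊤) :
    (∃ P : Sylow 5 A5, B = (P : Subgroup A5)) ∨
      (∃ P : Sylow 5 A5, B = Subgroup.normalizer (P : Set A5)) := by
  have hdvd : Nat.card B ∣ 60 := by
    have := Subgroup.card_subgroup_dvd_card B
    rwa [card_A5] at this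
  have h25 : ¬ 5 ^ 2 ∣ Nat.card B := fun h => a5_5.2 (h.trans (Subgroup.card_subgroup_dvd_card B))
  have h1 := card_order_p (K := B) (p := 5) h5 h25
  have h2 : Nat.card {x : B // x ^ 5 = 1 ∧ x ≠ 1} ≤ 24 := by
    rw [← A5_order5]
    apply Nat.card_le_card_of_injective (fun x : {x : B // x ^ 5 = 1 ∧ x ≠ 1} =>
      (⟨(x.1 : A5), by
        have := congrArg Subtype.val x.2.1
        simpa using this, fun h => x.2.2 (Subtype.ext h)⟩ : {g : A5 // g ^ 5 = 1 ∧ g ≠ 1}))
    intro x y hxy
    have h : ((x.1 : B) : A5) = ((y.1 : B) : A5) :=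
      congrArg (fun z : {g : A5 // g ^ 5 = 1 ∧ g ≠ 1} => z.1) hxy
    exact Subtype.ext (Subtype.ext h)
  have h3 : Nat.card {x : B // x ^ 5 = 1 ∧ x ≠ 1} < Nat.card B := by
    have := card_split (W := B) (fun x => x ^ 5 = 1 ∧ x ≠ 1)
    have h4 : 0 < Nat.card {x : B // ¬ (x ^ 5 = 1 ∧ x ≠ 1)} := by
      have : Nonempty {x : B // ¬ (x ^ 5 = 1 ∧ x ≠ 1)} := ⟨⟨1, fun h => h.2 rfl⟩⟩
      exact Nat.card_pos
    omega
  have h4 := card_sylow_modEq_one 5 B
  have h6 : Nat.card (Sylow 5 B) ≤ 6 := by omega
  have h7 : Nat.card (Sylow 5 B) % 5 = 1 := h4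
  have h8 : Nat.card (Sylow 5 B) = 1 ∨ Nat.card (Sylow 5 B) = 6 := by omega
  rcases h8 with h8 | h8
  · have hsub : Subsingleton (Sylow 5 B) := (Nat.card_eq_one_iff_unique.mp h8).1
    have Q : Sylow 5 B := default
    have hQ : Nat.card Q = 5 := sylow_card h5 h25 Q
    have hQn : (Q : Subgroup B).Normal := Q.normal_of_subsingleton
    obtain ⟨P, hP, hle⟩ := le_normalizer_of_unique a5_5.1 a5_5.2 B Q hQ hQn
    have h9 : Nat.card B ∣ 10 := by
      have := Subgroup.card_dvd_of_le hle
      rwa [card_norm5 P] at this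
    have h10 : Nat.card B = 5 ∨ Nat.card B = 10 := by
      have : Nat.card B ≤ 10 := Nat.le_of_dvd (by norm_num) h9
      obtain ⟨c, hc⟩ := h5
      have hpos : 0 < Nat.card B := Nat.card_pos
      have : c ≤ 2 := by omega
      interval_cases c <;> omega
    rcases h10 with h10 | h10
    · left
      refine ⟨P, ?_⟩
      rw [← hP]
      symm
      apply Subgroup.eq_of_le_of_card_ge (Subgroup.map_subtype_le _)
      rw [Subgroup.card_map_of_injective B.subtype_injective, h10]
      exact hQ.ge
    · right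
      refine ⟨P, ?_⟩
      apply Subgroup.eq_of_le_of_card_ge hle
      rw [card_norm5 P, h10]
  · exfalso
    have h9 : 24 < Nat.card B := by omega
    have h10 : Nat.card B = 30 ∨ Nat.card B = 60 := by
      obtain ⟨c, hc⟩ := hdvd
      have : c ≤ 2 := by
        by_contra hcon
        push Not at hcon
        nlinarith
      interval_cases c <;> omega
    rcases h10 with h10 | h10
    · have hidx : B.index = 2 := by
        have := Subgroup.card_mul_index B
        rw [h10, card_A5] at this
        omega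
      have hn : B.Normal := Subgroup.normal_of_index_eq_two hidx
      have hsimp : IsSimpleGroup A5 := alternatingGroup.isSimpleGroup (by simp)
      rcases hn.eq_bot_or_eq_top with h | h
      · rw [h] at h10
        simp at h10
      · exact hB h
    · apply hB
      apply Subgroup.eq_top_of_card_eq
      rw [h10, card_A5]

/-- Subgroups of order prime to five. -/
theorem a5_case5' (B : Subgroup A5) (h5 : ¬ 5 ∣ Nat.card B) :
    (∃ i : Fin 5, B ≤ stab i) ∨ Nat.card B = 2 * 3 := by
  by_cases hfix : ∃ i : Fin 5, B ≤ stab i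
  · exact Or.inl hfix
  right
  push Not at hfix
  have hmove : ∀ i : Fin 5, ∃ b : B, b • i ≠ i := by
    intro i
    have := hfix i
    rw [SetLike.not_le_iff_exists] at this
    obtain ⟨b, hb, hb2⟩ := this
    exact ⟨⟨b, hb⟩, hb2⟩
  have horb : ∀ i : Fin 5, (MulAction.orbit B i).ncard * Nat.card (MulAction.stabilizer B i) =
      Nat.card B := by
    intro i
    rw [← MulAction.index_stabilizer, mul_comm, Subgroup.card_mul_index]
  have hge2 : ∀ i : Fin 5, 2 ≤ (MulAction.orbit B i).ncard := by
    intro i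
    obtain ⟨b, hb⟩ := hmove i
    have : 1 < (MulAction.orbit B i).ncard := by
      rw [Set.one_lt_ncard]
      exact ⟨b • i, MulAction.mem_orbit i b, i, MulAction.mem_orbit_self i, hb⟩
    omega
  have hle : ∀ i : Fin 5, (MulAction.orbit B i).ncard ≤ 5 := by
    intro i
    have := Set.ncard_le_ncard (Set.subset_univ (MulAction.orbit B i))
    rw [Set.ncard_univ] at this
    simpa using this
  have hne5 : ∀ i : Fin 5, (MulAction.orbit B i).ncard ≠ 5 := by
    intro i h
    apply h5
    rw [← horb i, h]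
    exact Dvd.intro _ rfl
  -- an orbit of size two
  have h2 : ∃ i : Fin 5, (MulAction.orbit B i).ncard = 2 := by
    by_contra hcon
    push Not at hcon
    have hge3 : ∀ i : Fin 5, 3 ≤ (MulAction.orbit B i).ncard := by
      intro i
      have := hge2 i
      have := hcon i
      omega
    have hex : ∃ k : Fin 5, k ∉ MulAction.orbit B (0 : Fin 5) := by
      by_contra hall
      push Not at hall
      apply hne5 0
      have : MulAction.orbit B (0 : Fin 5) = Set.univ := Set.eq_univ_of_forall hall
      rw [this, Set.ncard_univ]; simp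
    obtain ⟨k, hk⟩ := hex
    have hdis : Disjoint (MulAction.orbit B (0 : Fin 5)) (MulAction.orbit B k) := by
      rw [Set.disjoint_left]
      intro y hy1 hy2
      apply hk
      rw [← MulAction.orbit_eq_iff] at hy1 hy2
      rw [← hy1, hy2]
      exact MulAction.mem_orbit_self k
    have hu := Set.ncard_union_eq hdis
    have hle' := Set.ncard_le_ncard (Set.subset_univ
      (MulAction.orbit B (0 : Fin 5) ∪ MulAction.orbit B k))
    rw [Set.ncard_univ] at hle'
    have h30 := hge3 0
    have h3k := hge3 k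
    simp at hle'
    omega
  obtain ⟨i, hi⟩ := h2
  obtain ⟨b, hb⟩ := hmove i
  set j := b • i with hj
  have horbij : MulAction.orbit B i = {i, j} := by
    symm
    refine Set.eq_of_subset_of_ncard_le ?_ ?_ (Set.toFinite _)
    · intro y hy
      rcases hy with rfl | rfl
      · exact MulAction.mem_orbit_self _
      · exact MulAction.mem_orbit i b
    · rw [hi, Set.ncard_pair (Ne.symm hb)]
  have hst : Nat.card (MulAction.stabilizer B i) ∣ 3 := by
    have hcard : Nat.card (stab i ⊓ stab j : Subgroup A5) = 3 :=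
      A5_two_points i j (Ne.symm hb)
    rw [← hcard]
    have hinj : Injective (B.subtype.comp (MulAction.stabilizer B i).subtype) :=
      B.subtype_injective.comp (MulAction.stabilizer B i).subtype_injective
    have hr : (B.subtype.comp (MulAction.stabilizer B i).subtype).range ≤ stab i ⊓ stab j := by
      rintro x ⟨s, rfl⟩
      have hs : s.1 • i = i := s.2
      refine ⟨hs, ?_⟩
      have h1 : s.1 • j ∈ MulAction.orbit B i := by
        rw [hj, smul_smul]
        exact MulAction.mem_orbit i _
      rw [horbij] at h1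
      rcases h1 with h1 | h1
      · exfalso
        apply hb
        have : s.1 • j = s.1 • i := by rw [h1, hs]
        exact smul_left_cancel _ this
      · exact h1
    have := Subgroup.card_dvd_of_le hr
    have e : Nat.card (B.subtype.comp (MulAction.stabilizer B i).subtype).range =
        Nat.card (MulAction.stabilizer B i) :=
      Nat.card_congr (MonoidHom.ofInjective hinj).symm.toEquiv
    rwa [e] at this
  have h13 : Nat.card (MulAction.stabilizer B i) = 1 ∨ Nat.card (MulAction.stabilizer B i) = 3 :=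
    (Nat.dvd_prime Nat.prime_three).mp hst
  have hB := horb i
  rw [hi] at hB
  rcases h13 with h | h
  · exfalso
    rw [h] at hB
    have : Fact (Nat.Prime 2) := ⟨Nat.prime_two⟩
    have hp : IsPGroup 2 B := IsPGroup.of_card (n := 1) (by rw [← hB]; norm_num)
    have hne := hp.nonempty_fixed_point_of_prime_not_dvd_card (Fin 5) (by simp)
    obtain ⟨k, hk⟩ := hne
    obtain ⟨c, hc⟩ := hmove k
    exact hc (hk c)
  · rw [← hB, h]

/-- The proper subgroups of the alternating group on five letters. -/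
theorem a5_subgroups (B : Subgroup A5) (hB : B ≠ ⊤) :
    (∃ i : Fin 5, B ≤ stab i) ∨ (∃ P : Sylow 5 A5, B = (P : Subgroup A5)) ∨
      (∃ P : Sylow 5 A5, B = Subgroup.normalizer (P : Set A5)) ∨
      (∃ P : Sylow 3 A5, B = Subgroup.normalizer (P : Set A5)) := by
  by_cases h5 : 5 ∣ Nat.card B
  · rcases a5_case5 B h5 hB with h | h
    · exact Or.inr (Or.inl h)
    · exact Or.inr (Or.inr (Or.inl h))
  · rcases a5_case5' B h5 with h | h
    · exact Or.inl h
    · exact Or.inr (Or.inr (Or.inr (eq_normalizer_of_card a5_3.1 a5_3.2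
        card_norm3 B h)))

end Pool.Agent.H21.Prof
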