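import Mathlib

set_option autoImplicit false

namespace Pool.Agent.H21.Prof

open Function

/-- Homomorphisms from a topological group to an abstract group with open kernel
(that is, homomorphisms that are continuous for the discrete topology on the target). -/
abbrev CH (G A : Type) [Group G] [TopologicalSpace G] [Group A] : Type :=
  {f : G →* A // IsOpen (f.ker : Set G)}

/-- The number of homomorphisms with open kernel. -/
noncomputable def hh (G A : Type) [Group G] [TopologicalSpace G] [Group A] : ℕ :=
  Nat.card (CH G A)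

section
variable {G : Type} [Group G] [TopologicalSpace G] [IsTopologicalGroup G]
variable {H : Type} [Group H] [TopologicalSpace H] [IsTopologicalGroup H]

/-- Composition with a homomorphism of the target. -/
def cmap {A B : Type} [Group A] [Group B] (π : A →* B) (φ : CH G A) : CH G B :=
  ⟨π.comp φ.1, Subgroup.isOpen_mono (H₁ := φ.1.ker)
    (fun x hx => by
      rw [MonoidHom.mem_ker] at hx ⊢
      rw [MonoidHom.comp_apply, hx, map_one]) φ.2⟩

@[simp] theorem cmap_apply {A B : Type} [Group A] [Group B] (π : A →* B) (φ : CH G A) (g : G) :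
    (cmap π φ).1 g = π (φ.1 g) := rfl

theorem cmap_cmap {A B C : Type} [Group A] [Group B] [Group C] (π : A →* B) (ρ : B →* C)
    (φ : CH G A) : cmap ρ (cmap π φ) = cmap (ρ.comp π) φ := rfl

theorem ch_ext {A : Type} [Group A] {φ ψ : CH G A} (h : ∀ g, φ.1 g = ψ.1 g) : φ = ψ :=
  Subtype.ext (MonoidHom.ext h)

instance chOne {A : Type} [Group A] : One (CH G A) :=
  ⟨⟨1, by
    have : ((1 : G →* A).ker : Set G) = Set.univ := by
      ext x; simp [MonoidHom.mem_ker]
    rw [this]; exact isOpen_univ⟩⟩

@[simp] theorem one_apply {A : Type} [Group A] (g : G) : (1 : CH G A).1 g = 1 := rfl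

/-- A natural family of bijections expressing that the free profinite product of `G` and `H`
is free profinite of rank `n`. -/
structure Link (G H : Type) [Group G] [TopologicalSpace G] [IsTopologicalGroup G]
    [Group H] [TopologicalSpace H] [IsTopologicalGroup H] (n : ℕ) where
  E : ∀ (A : Type) [Group A] [Finite A], (CH G A × CH H A) ≃ (Fin n → A)
  nat : ∀ (A B : Type) [Group A] [Finite A] [Group B] [Finite B] (π : A →* B)
    (φ : CH G A) (ψ : CH H A), E B (cmap π φ, cmap π ψ) = π ∘ E A (φ, ψ)

/-- The symmetric link. -/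
def Link.symm {n : ℕ} (L : Link G H n) : Link H G n where
  E A _ _ := (Equiv.prodComm _ _).trans (L.E A)
  nat A B _ _ _ _ π φ ψ := by
    simpa using L.nat A B π ψ φ

theorem Link.card_mul {n : ℕ} (L : Link G H n) (A : Type) [Group A] [Finite A] :
    hh G A * hh H A = Nat.card A ^ n := by
  have h1 := Nat.card_congr (L.E A)
  rw [Nat.card_prod] at h1
  rw [hh, hh, h1]
  simp [Nat.card_fun]

theorem Link.hh_pos {n : ℕ} (L : Link G H n) (A : Type) [Group A] [Finite A] :
    0 < hh G A := by
  have h1 := L.card_mul A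
  have h2 : 0 < Nat.card A ^ n := pow_pos Nat.card_pos n
  rw [← h1] at h2
  exact Nat.pos_of_mul_pos_right h2

theorem Link.finite {n : ℕ} (L : Link G H n) (A : Type) [Group A] [Finite A] :
    Finite (CH G A) :=
  (Nat.card_pos_iff.mp (L.hh_pos A)).2

/-- `G` is *regular*: finitely many homomorphisms into every finite group, and the number of
lifts of a homomorphism through a surjection does not depend on the homomorphism. -/
structure Reg (G : Type) [Group G] [TopologicalSpace G] [IsTopologicalGroup G] : Prop where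
  fin : ∀ (A : Type) [Group A] [Finite A], Finite (CH G A)
  lift : ∀ (A Q : Type) [Group A] [Finite A] [Group Q] [Finite Q] (π : A →* Q),
    Surjective π → ∀ φ : CH G Q,
      Nat.card {φ' : CH G A // cmap π φ' = φ} = hh G π.ker

/-- Homomorphisms into a subgroup are homomorphisms with range in it. -/
def subEquiv {A : Type} [Group A] (B : Subgroup A) :
    CH G B ≃ {φ : CH G A // φ.1.range ≤ B} where
  toFun φ := ⟨cmap B.subtype φ, by
    rintro x ⟨g, rfl⟩
    exact (φ.1 g).2⟩
  invFun φ := ⟨φ.1.1.codRestrict B (fun g => φ.2 ⟨g, rfl⟩), by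
    have : ((φ.1.1.codRestrict B (fun g => φ.2 ⟨g, rfl⟩)).ker : Set G) = φ.1.1.ker := by
      rw [MonoidHom.ker_codRestrict]
    rw [this]; exact φ.1.2⟩
  left_inv φ := by
    apply ch_ext; intro g; rfl
  right_inv φ := by
    apply Subtype.ext; apply ch_ext; intro g; rfl

theorem hh_sub {A : Type} [Group A] (B : Subgroup A) :
    hh G B = Nat.card {φ : CH G A // φ.1.range ≤ B} := Nat.card_congr (subEquiv B)

/-- Invariance under isomorphism. -/
def congrEquiv {A B : Type} [Group A] [Group B] (e : A ≃* B) : CH G A ≃ CH G B where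
  toFun φ := cmap e.toMonoidHom φ
  invFun φ := cmap e.symm.toMonoidHom φ
  left_inv φ := by apply ch_ext; intro g; simp
  right_inv φ := by apply ch_ext; intro g; simp

theorem hh_congr {A B : Type} [Group A] [Group B] (e : A ≃* B) : hh G A = hh G B :=
  Nat.card_congr (congrEquiv e)

theorem cmap_eq_one_iff {A Q : Type} [Group A] [Group Q] (π : A →* Q) (φ : CH G A) :
    cmap π φ = 1 ↔ φ.1.range ≤ π.ker := by
  constructor
  · rintro h x ⟨g, rfl⟩
    rw [MonoidHom.mem_ker]
    have := congrArg (fun ψ : CH G Q => ψ.1 g) h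
    simpa using this
  · intro h
    apply ch_ext; intro g
    have := h ⟨g, rfl⟩
    rw [MonoidHom.mem_ker] at this
    simpa using this

theorem card_lifts_one {A Q : Type} [Group A] [Group Q] (π : A →* Q) :
    Nat.card {φ' : CH G A // cmap π φ' = 1} = hh G π.ker := by
  rw [hh_sub]
  exact Nat.card_congr (Equiv.subtypeEquivRight fun φ => cmap_eq_one_iff π φ)

/-- Counting lifts of a pair. -/
theorem Link.lifts_mul {n : ℕ} (L : Link G H n) {A Q : Type} [Group A] [Finite A] [Group Q]
    [Finite Q] (π : A →* Q) (hπ : Surjective π) (φ : CH G Q) (ψ : CH H Q) :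
    Nat.card {φ' : CH G A // cmap π φ' = φ} * Nat.card {ψ' : CH H A // cmap π ψ' = ψ} =
      Nat.card π.ker ^ n := by
  have e1 : ({φ' : CH G A // cmap π φ' = φ} × {ψ' : CH H A // cmap π ψ' = ψ}) ≃
      {t : Fin n → A // π ∘ t = L.E Q (φ, ψ)} :=
    { toFun := fun p => ⟨L.E A (p.1.1, p.2.1), by
        rw [← L.nat, p.1.2, p.2.2]⟩
      invFun := fun t =>
        have key : (cmap π ((L.E A).symm t.1).1, cmap π ((L.E A).symm t.1).2) = (φ, ψ) := by
          apply (L.E Q).injective
          rw [L.nat]
          rw [Prod.mk.eta, Equiv.apply_symm_apply]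
          exact t.2
        (⟨((L.E A).symm t.1).1, (Prod.ext_iff.mp key).1⟩,
          ⟨((L.E A).symm t.1).2, (Prod.ext_iff.mp key).2⟩)
      left_inv := fun p => by
        apply Prod.ext
        · apply Subtype.ext; simp
        · apply Subtype.ext; simp
      right_inv := fun t => by
        apply Subtype.ext; simp }
  rw [← Nat.card_prod, Nat.card_congr e1]
  have e2 : {t : Fin n → A // π ∘ t = L.E Q (φ, ψ)} ≃
      ∀ i : Fin n, {a : A // π a = L.E Q (φ, ψ) i} :=
    { toFun := fun t i => ⟨t.1 i, congrFun t.2 i⟩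
      invFun := fun s => ⟨fun i => (s i).1, funext fun i => (s i).2⟩
      left_inv := fun t => rfl
      right_inv := fun s => rfl }
  rw [Nat.card_congr e2, Nat.card_pi]
  have e3 : ∀ i : Fin n, Nat.card {a : A // π a = L.E Q (φ, ψ) i} = Nat.card π.ker := by
    intro i
    obtain ⟨a0, ha0⟩ := hπ (L.E Q (φ, ψ) i)
    exact Nat.card_congr
      { toFun := fun a => ⟨a0⁻¹ * a.1, by
          rw [MonoidHom.mem_ker, map_mul, map_inv, a.2, ha0]; group⟩
        invFun := fun k => ⟨a0 * k.1, by
          rw [map_mul, MonoidHom.mem_ker.mp k.2, ha0, mul_one]⟩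
        left_inv := fun a => by apply Subtype.ext; simp
        right_inv := fun k => by apply Subtype.ext; simp }
  rw [Finset.prod_congr rfl (fun i _ => e3 i)]
  simp

theorem Link.reg {n : ℕ} (L : Link G H n) : Reg G where
  fin A _ _ := L.finite A
  lift A Q _ _ _ _ π hπ φ := by
    have h1 := L.lifts_mul π hπ φ 1
    have h2 := L.lifts_mul π hπ 1 1
    rw [card_lifts_one (G := G) π] at h2
    rw [← h2] at h1
    apply Nat.eq_of_mul_eq_mul_right _ h1
    rw [card_lifts_one (G := H) π]
    exact L.symm.hh_pos _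

/-- Multiplicativity of the number of homomorphisms. -/
theorem Reg.mul (R : Reg G) {A Q : Type} [Group A] [Finite A] [Group Q] [Finite Q]
    (π : A →* Q) (hπ : Surjective π) : hh G A = hh G Q * hh G π.ker := by
  have : Finite (CH G Q) := R.fin Q
  have : Finite (CH G A) := R.fin A
  have e : CH G A ≃ Σ φ : CH G Q, {φ' : CH G A // cmap π φ' = φ} :=
    (Equiv.sigmaFiberEquiv (fun φ' : CH G A => cmap π φ')).symm
  have : Fintype (CH G Q) := Fintype.ofFinite _
  rw [hh, Nat.card_congr e, Nat.card_sigma]
  rw [Finset.sum_congr rfl (fun φ _ => R.lift A Q π hπ φ)]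
  simp [hh]

theorem Reg.mul_quot (R : Reg G) {A : Type} [Group A] [Finite A] (N : Subgroup A) [N.Normal] :
    hh G A = hh G (A ⧸ N) * hh G N := by
  have h := R.mul (QuotientGroup.mk' N) (QuotientGroup.mk'_surjective N)
  rw [h, QuotientGroup.ker_mk']

theorem Reg.pos (R : Reg G) (A : Type) [Group A] [Finite A] : 0 < hh G A := by
  have : Finite (CH G A) := R.fin A
  exact Nat.card_pos

theorem Reg.exists_lift (R : Reg G) {A Q : Type} [Group A] [Finite A] [Group Q] [Finite Q]
    (π : A →* Q) (hπ : Surjective π) (φ : CH G Q) : ∃ φ' : CH G A, cmap π φ' = φ := by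
  have h := R.lift A Q π hπ φ
  have h2 := R.pos π.ker
  rw [← h] at h2
  obtain ⟨x⟩ := (Nat.card_pos_iff.mp h2).1
  exact ⟨x.1, x.2⟩

theorem hh_subsingleton {A : Type} [Group A] [Subsingleton A] : hh G A = 1 := by
  have : Unique (CH G A) :=
    { default := 1
      uniq := fun a => by apply ch_ext; intro g; exact Subsingleton.elim _ _ }
  exact Nat.card_unique

end

end Pool.Agent.H21.Prof
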