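import Pool.Agent.H21.Prof.Ranks

set_option autoImplicit false

namespace Pool.Agent.H21.Prof

open Function

section poset
variable {α X Y : Type} [PartialOrder α] [Finite α] [Finite X] [Finite Y]

theorem card_fib_sum {β W : Type} [Finite β] [Finite W] (r : W → β) (S : Set β) :
    Nat.card {x // r x ∈ S} = ∑ᶠ b ∈ S, Nat.card {x // r x = b} := by
  classical
  have := Fintype.ofFinite β
  have := Fintype.ofFinite W
  rw [finsum_mem_def, finsum_eq_sum_of_fintype]
  simp only [Nat.card_eq_fintype_card, Fintype.card_subtype]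
  rw [Finset.card_eq_sum_card_fiberwise (f := r) (t := Finset.univ) (by simp)]
  apply Finset.sum_congr rfl
  intro b _
  by_cases hb : b ∈ S
  · rw [Set.indicator_of_mem hb]
    congr 1
    ext x
    simp only [Finset.mem_filter, Finset.mem_univ, true_and]
    constructor
    · rintro ⟨_, h⟩; exact h
    · rintro rfl; exact ⟨hb, rfl⟩
  · rw [Set.indicator_of_notMem hb, Finset.card_eq_zero, Finset.filter_eq_empty_iff]
    intro x hx hxb
    rw [Finset.mem_filter, hxb] at hx
    exact hb hx.2

theorem card_eq_of_card_le (r : X → α) (s : Y → α) (F : Set α)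
    (hF : ∀ a b, a ≤ b → b ∈ F → a ∈ F)
    (h : ∀ b ∈ F, Nat.card {x // r x ≤ b} = Nat.card {y // s y ≤ b}) (b : α) :
    b ∈ F → Nat.card {x // r x = b} = Nat.card {y // s y = b} := by
  classical
  have := Fintype.ofFinite α
  induction b using WellFounded.induction (r := (· < · : α → α → Prop)) wellFounded_lt with
  | _ b ih =>
  intro hb
  have key : ∀ (W : Type) [Finite W] (t : W → α), Nat.card {x // t x ≤ b} =
      Nat.card {x // t x = b} + ∑ᶠ a ∈ Set.Iio b, Nat.card {x // t x = a} := by
    intro W _ t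
    have e1 := card_fib_sum t (Set.Iic b)
    have e2 : Set.Iic b = insert b (Set.Iio b) := by rw [Set.Iio_insert]
    have e3 : Nat.card {x // t x ≤ b} = Nat.card {x // t x ∈ Set.Iic b} := rfl
    rw [e3, e1, e2, finsum_mem_insert _ (by simp) (Set.toFinite _)]
  have h1 := key X r
  have h2 := key Y s
  have h3 := h b hb
  have h4 : ∑ᶠ a ∈ Set.Iio b, Nat.card {x // r x = a} =
      ∑ᶠ a ∈ Set.Iio b, Nat.card {x // s x = a} := by
    apply finsum_mem_congr rfl
    intro a ha
    exact ih a ha (hF a b (le_of_lt ha) hb)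
  omega

theorem card_mem_eq (r : X → α) (s : Y → α) (F : Set α)
    (hF : ∀ a b, a ≤ b → b ∈ F → a ∈ F)
    (h : ∀ b ∈ F, Nat.card {x // r x ≤ b} = Nat.card {y // s y ≤ b}) :
    Nat.card {x // r x ∈ F} = Nat.card {y // s y ∈ F} := by
  rw [card_fib_sum r F, card_fib_sum s F]
  apply finsum_mem_congr rfl
  intro b hb
  exact card_eq_of_card_le r s F hF h b hb

end poset

variable {G : Type} [Group G] [TopologicalSpace G] [IsTopologicalGroup G]

theorem card_tuples_le {K : Type} [Group K] [Finite K] (m : ℕ) (B : Subgroup K) :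
    Nat.card {t : Fin m → K // Subgroup.closure (Set.range t) ≤ B} = Nat.card B ^ m := by
  have e : {t : Fin m → K // Subgroup.closure (Set.range t) ≤ B} ≃ (Fin m → B) :=
    { toFun := fun t i => ⟨t.1 i, t.2 (Subgroup.subset_closure ⟨i, rfl⟩)⟩
      invFun := fun t => ⟨fun i => (t i).1, by
        rw [Subgroup.closure_le]
        rintro x ⟨i, rfl⟩
        exact (t i).2⟩
      left_inv := fun t => rfl
      right_inv := fun t => rfl }
  rw [Nat.card_congr e]
  simp [Nat.card_fun]

/-- If the number of homomorphisms into each member `B` of a downward closed family is `|B| ^ m`,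
then the homomorphisms with range in the family are as numerous as the `m`-tuples which generate
a member of the family. -/
theorem count_family (R : Reg G) {K : Type} [Group K] [Finite K] (m : ℕ)
    (F : Set (Subgroup K)) (hF : ∀ A B : Subgroup K, A ≤ B → B ∈ F → A ∈ F)
    (h : ∀ B ∈ F, hh G B = Nat.card B ^ m) :
    Nat.card {φ : CH G K // φ.1.range ∈ F} =
      Nat.card {t : Fin m → K // Subgroup.closure (Set.range t) ∈ F} := by
  have := R.fin K
  apply card_mem_eq (fun φ : CH G K => φ.1.range)
    (fun t : Fin m → K => Subgroup.closure (Set.range t)) F hF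
  intro B hB
  rw [card_tuples_le, ← h B hB, hh_sub]

/-- Number of surjections. -/
theorem count_surj (R : Reg G) {K : Type} [Group K] [Finite K] (m : ℕ)
    (h : ∀ B : Subgroup K, hh G B = Nat.card B ^ m) :
    Nat.card {φ : CH G K // φ.1.range = ⊤} =
      Nat.card {t : Fin m → K // Subgroup.closure (Set.range t) = ⊤} := by
  have := R.fin K
  apply card_eq_of_card_le (fun φ : CH G K => φ.1.range)
    (fun t : Fin m → K => Subgroup.closure (Set.range t)) Set.univ (fun _ _ _ _ => trivial)
  · intro B _
    rw [card_tuples_le, ← h B, hh_sub]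
  · trivial

/-- The one-element version. -/
theorem count_family_one (R : Reg G) {K : Type} [Group K] [Finite K]
    (F : Set (Subgroup K)) (hF : ∀ A B : Subgroup K, A ≤ B → B ∈ F → A ∈ F)
    (h : ∀ B ∈ F, hh G B = Nat.card B) :
    Nat.card {φ : CH G K // φ.1.range ∈ F} =
      Nat.card {x : K // Subgroup.zpowers x ∈ F} := by
  rw [count_family R 1 F hF (fun B hB => by rw [pow_one]; exact h B hB)]
  apply Nat.card_congr
  refine ⟨fun t => ⟨t.1 0, ?_⟩, fun x => ⟨fun _ => x.1, ?_⟩, ?_, ?_⟩
  · have h1 := t.2
    have h2 : Set.range t.1 = {t.1 0} := by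
      ext y
      constructor
      · rintro ⟨i, rfl⟩
        rw [Subsingleton.elim i 0]; rfl
      · rintro rfl
        exact ⟨0, rfl⟩
    rw [h2, ← Subgroup.zpowers_eq_closure] at h1
    exact h1
  · have h1 := x.2
    have h2 : Set.range (fun _ : Fin 1 => x.1) = {x.1} := by
      ext y
      constructor
      · rintro ⟨i, rfl⟩; rfl
      · rintro rfl
        exact ⟨0, rfl⟩
    rw [h2, ← Subgroup.zpowers_eq_closure]
    exact h1
  · intro t
    apply Subtype.ext
    funext i
    rw [Subsingleton.elim i 0]
  · intro x; rfl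

/-- The two-element version. -/
theorem count_family_two (R : Reg G) {K : Type} [Group K] [Finite K]
    (F : Set (Subgroup K)) (hF : ∀ A B : Subgroup K, A ≤ B → B ∈ F → A ∈ F)
    (h : ∀ B ∈ F, hh G B = Nat.card B ^ 2) :
    Nat.card {φ : CH G K // φ.1.range ∈ F} =
      Nat.card {x : K × K // Subgroup.closure {x.1, x.2} ∈ F} := by
  rw [count_family R 2 F hF h]
  apply Nat.card_congr
  refine ⟨fun t => ⟨(t.1 0, t.1 1), ?_⟩, fun x => ⟨![x.1.1, x.1.2], ?_⟩, ?_, ?_⟩
  · have h1 := t.2
    have h2 : Set.range t.1 = {t.1 0, t.1 1} := by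
      ext y
      simp [Set.mem_range, Fin.exists_fin_two, eq_comm]
    rw [h2] at h1
    exact h1
  · have h1 := x.2
    have h2 : Set.range ![x.1.1, x.1.2] = {x.1.1, x.1.2} := by
      ext y
      simp
      tauto
    rw [h2]
    exact h1
  · intro t
    apply Subtype.ext
    funext i
    fin_cases i <;> rfl
  · intro x; rfl

end Pool.Agent.H21.Prof
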