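import Pool.Agent.H21.Prof.Simple

set_option autoImplicit false

namespace Pool.Agent.H21.Prof

open Function

/-- `G` is free profinite (for targets in `Type`) on some family indexed by `Fin k`. -/
def IsFree (G : Type) [Group G] [TopologicalSpace G] (k : ℕ) : Prop :=
  ∃ ι : Fin k → G,
    ∀ (K : Type) [Group K] [TopologicalSpace K] [IsTopologicalGroup K] [CompactSpace K]
      [T2Space K] [TotallyDisconnectedSpace K] (f : Fin k → K),
      ∃! φ : ContinuousMonoidHom G K, ∀ i, φ (ι i) = f i

/-- Open normal subgroups. -/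
abbrev ON (K : Type) [Group K] [TopologicalSpace K] : Type :=
  {U : Subgroup K // U.Normal ∧ IsOpen (U : Set K)}

variable {G : Type} [Group G] [TopologicalSpace G] [IsTopologicalGroup G]

theorem ON.finite [CompactSpace G] (U : ON G) : Finite (G ⧸ U.1) :=
  Subgroup.quotient_finite_of_isOpen U.1 U.2.2

instance (U : ON G) : U.1.Normal := U.2.1

/-- The intersection of two open normal subgroups. -/
def ON.inf (U V : ON G) : ON G :=
  ⟨U.1 ⊓ V.1, Subgroup.normal_inf_normal _ _, by
    rw [Subgroup.coe_inf]; exact U.2.2.inter V.2.2⟩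

/-- The tuples that generate modulo an open normal subgroup form a closed set. -/
theorem isClosed_gen (k : ℕ) (U : ON G) :
    IsClosed {t : Fin k → G | Subgroup.closure (Set.range t) ⊔ U.1 = ⊤} := by
  have : DiscreteTopology (G ⧸ U.1) := QuotientGroup.discreteTopology U.2.2
  have h : {t : Fin k → G | Subgroup.closure (Set.range t) ⊔ U.1 = ⊤} =
      (fun t : Fin k → G => fun i => (QuotientGroup.mk (t i) : G ⧸ U.1)) ⁻¹'
        {s | Subgroup.closure (Set.range s) = ⊤} := by
    ext t
    change Subgroup.closure (Set.range t) ⊔ U.1 = ⊤ ↔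
      Subgroup.closure (Set.range (fun i => (QuotientGroup.mk (t i) : G ⧸ U.1))) = ⊤
    have h1 : Set.range (fun i => (QuotientGroup.mk (t i) : G ⧸ U.1)) =
        (QuotientGroup.mk' U.1) '' Set.range t := by
      rw [← Set.range_comp]; rfl
    rw [h1, ← MonoidHom.map_closure, ← Subgroup.comap_injective
      (QuotientGroup.mk'_surjective U.1) |>.eq_iff, Subgroup.comap_map_eq,
      QuotientGroup.ker_mk', Subgroup.comap_top]
  rw [h]
  apply IsClosed.preimage
  · exact continuous_pi fun i => continuous_quot_mk.comp (continuous_apply i)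
  · exact isClosed_discrete _

/-- The canonical map to a finite quotient. -/
def ON.mk (U : ON G) : CH G (G ⧸ U.1) :=
  ⟨QuotientGroup.mk' U.1, by rw [QuotientGroup.ker_mk']; exact U.2.2⟩

/-- Topological generation. -/
theorem exists_gen [CompactSpace G] (R : Reg G) (k : ℕ)
    (h : ∀ (A : Type) [Group A] [Finite A], hh G A = Nat.card A ^ k) :
    ∃ t : Fin k → G, ∀ U : ON G, Subgroup.closure (Set.range t) ⊔ U.1 = ⊤ := by
  have hne : Nonempty (ON G) := ⟨⟨⊤, inferInstance, isOpen_univ⟩⟩
  have key := IsCompact.nonempty_iInter_of_directed_nonempty_isCompact_isClosed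
    (fun U : ON G => {t : Fin k → G | Subgroup.closure (Set.range t) ⊔ U.1 = ⊤}) ?_ ?_ ?_ ?_
  · obtain ⟨t, ht⟩ := key
    refine ⟨t, fun U => ?_⟩
    exact (Set.mem_iInter.mp ht) U
  · intro U V
    refine ⟨U.inf V, ?_, ?_⟩
    · intro t ht
      change Subgroup.closure (Set.range t) ⊔ U.1 = ⊤
      have ht' : Subgroup.closure (Set.range t) ⊔ (U.1 ⊓ V.1) = ⊤ := ht
      apply top_le_iff.mp
      rw [← ht']
      exact sup_le_sup_left inf_le_left _
    · intro t ht
      change Subgroup.closure (Set.range t) ⊔ V.1 = ⊤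
      have ht' : Subgroup.closure (Set.range t) ⊔ (U.1 ⊓ V.1) = ⊤ := ht
      apply top_le_iff.mp
      rw [← ht']
      exact sup_le_sup_left inf_le_right _
  · intro U
    have := U.finite
    have h1 := count_surj R (K := G ⧸ U.1) k (fun B => h B)
    have h2 : 0 < Nat.card {φ : CH G (G ⧸ U.1) // φ.1.range = ⊤} := by
      have := R.fin (G ⧸ U.1)
      have : Nonempty {φ : CH G (G ⧸ U.1) // φ.1.range = ⊤} :=
        ⟨⟨U.mk, MonoidHom.range_eq_top.mpr (QuotientGroup.mk'_surjective U.1)⟩⟩
      exact Nat.card_pos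
    rw [h1] at h2
    obtain ⟨⟨s, hs⟩⟩ := (Nat.card_pos_iff.mp h2).1
    refine ⟨fun i => (s i).out, ?_⟩
    change Subgroup.closure (Set.range (fun i => (s i).out)) ⊔ U.1 = ⊤
    have h1 : Set.range s =
        (QuotientGroup.mk' U.1) '' Set.range (fun i => (s i).out) := by
      rw [← Set.range_comp]
      congr 1
      funext i
      exact (QuotientGroup.out_eq' (s i)).symm
    rw [h1, ← MonoidHom.map_closure, ← Subgroup.comap_injective
      (QuotientGroup.mk'_surjective U.1) |>.eq_iff, Subgroup.comap_map_eq,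
      QuotientGroup.ker_mk', Subgroup.comap_top] at hs
    exact hs
  · intro U
    exact (isClosed_gen k U).isCompact
  · intro U
    exact isClosed_gen k U

/-- Two homomorphisms agreeing on a topologically generating tuple are equal. -/
theorem ch_eq_of_gen {k : ℕ} {t : Fin k → G}
    (ht : ∀ U : ON G, Subgroup.closure (Set.range t) ⊔ U.1 = ⊤)
    {A : Type} [Group A] {φ ψ : CH G A} (h : ∀ i, φ.1 (t i) = ψ.1 (t i)) : φ = ψ := by
  let U : ON G := ⟨φ.1.ker ⊓ ψ.1.ker, Subgroup.normal_inf_normal _ _, by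
    rw [Subgroup.coe_inf]; exact φ.2.inter ψ.2⟩
  have h1 : Subgroup.closure (Set.range t) ⊔ U.1 ≤ φ.1.eqLocus ψ.1 := by
    apply sup_le
    · rw [Subgroup.closure_le]
      rintro x ⟨i, rfl⟩
      exact h i
    · intro x hx
      obtain ⟨hx1, hx2⟩ := Subgroup.mem_inf.mp hx
      rw [MonoidHom.mem_ker] at hx1 hx2
      change φ.1 x = ψ.1 x
      rw [hx1, hx2]
  rw [ht U] at h1
  apply ch_ext
  intro g
  exact h1 (Subgroup.mem_top g)

/-- A profinite group with `|A| ^ k` homomorphisms into each finite group `A` is free profinite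
of rank `k`. -/
theorem isFree_of_card [CompactSpace G] (R : Reg G) (k : ℕ)
    (h : ∀ (A : Type) [Group A] [Finite A], hh G A = Nat.card A ^ k) : IsFree G k := by
  obtain ⟨t, ht⟩ := exists_gen R k h
  refine ⟨t, ?_⟩
  have hbij : ∀ (A : Type) [Group A] [Finite A],
      Bijective (fun φ : CH G A => fun i => φ.1 (t i)) := by
    intro A _ _
    have := R.fin A
    have hinj : Injective (fun φ : CH G A => fun i => φ.1 (t i)) := by
      intro φ ψ hφψ
      exact ch_eq_of_gen ht (fun i => congrFun hφψ i)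
    apply hinj.bijective_of_nat_card_le
    have h1 : Nat.card (Fin k → A) = Nat.card A ^ k := by simp [Nat.card_fun]
    rw [h1, ← h A]
    exact le_refl _
  intro K _ _ _ _ _ _ f
  -- the maps to the finite quotients
  have hex : ∀ V : ON K, ∃ φ : CH G (K ⧸ V.1), ∀ i, φ.1 (t i) = QuotientGroup.mk (f i) := by
    intro V
    have := V.finite
    obtain ⟨φ, hφ⟩ := (hbij (K ⧸ V.1)).2 (fun i => QuotientGroup.mk (f i))
    exact ⟨φ, fun i => congrFun hφ i⟩
  choose Φ hΦ using hex
  have hcomp : ∀ (V W : ON K) (hVW : V.1 ≤ W.1) (g : G) (x : K),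
      (Φ V).1 g = QuotientGroup.mk x → (Φ W).1 g = QuotientGroup.mk x := by
    intro V W hVW g x hx
    let ρ : K ⧸ V.1 →* K ⧸ W.1 := QuotientGroup.map V.1 W.1 (MonoidHom.id K) hVW
    have h1 : Φ W = cmap ρ (Φ V) := by
      apply ch_eq_of_gen ht
      intro i
      rw [hΦ W i, cmap_apply, hΦ V i]
      rfl
    rw [h1, cmap_apply, hx]
    rfl
  have hsep : ∀ x y : K, (∀ V : ON K, (QuotientGroup.mk x : K ⧸ V.1) = QuotientGroup.mk y) →
      x = y := by
    intro x y hxy
    by_contra hne
    have h1 : x⁻¹ * y ≠ 1 := fun h => hne (inv_mul_eq_one.mp h)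
    obtain ⟨N, hN⟩ := ProfiniteGrp.exist_openNormalSubgroup_sub_open_nhds_of_one
      (G := K) (U := {x⁻¹ * y}ᶜ) isOpen_compl_singleton (by
        intro h; exact h1 (Set.mem_singleton_iff.mp h).symm)
    have h2 := hxy ⟨N.toSubgroup, N.isNormal', N.isOpen'⟩
    rw [QuotientGroup.eq] at h2
    exact hN h2 rfl
  have hpt : ∀ g : G, ∃ x : K, ∀ V : ON K, (Φ V).1 g = QuotientGroup.mk x := by
    intro g
    have hne : Nonempty (ON K) := ⟨⟨⊤, inferInstance, isOpen_univ⟩⟩
    have key := IsCompact.nonempty_iInter_of_directed_nonempty_isCompact_isClosed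
      (fun V : ON K => {x : K | (Φ V).1 g = QuotientGroup.mk x}) ?_ ?_ ?_ ?_
    · obtain ⟨x, hx⟩ := key
      exact ⟨x, fun V => (Set.mem_iInter.mp hx) V⟩
    · intro V W
      refine ⟨V.inf W, ?_, ?_⟩
      · intro x hx
        exact hcomp (V.inf W) V inf_le_left g x hx
      · intro x hx
        exact hcomp (V.inf W) W inf_le_right g x hx
    · intro V
      obtain ⟨x, hx⟩ := QuotientGroup.mk_surjective ((Φ V).1 g)
      exact ⟨x, hx.symm⟩
    · intro V
      have : DiscreteTopology (K ⧸ V.1) := QuotientGroup.discreteTopology V.2.2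
      have : IsClosed {x : K | (Φ V).1 g = QuotientGroup.mk x} := by
        have e : {x : K | (Φ V).1 g = QuotientGroup.mk x} =
            (fun x : K => (QuotientGroup.mk x : K ⧸ V.1)) ⁻¹' {(Φ V).1 g} := by
          ext x
          change (Φ V).1 g = QuotientGroup.mk x ↔ QuotientGroup.mk x = (Φ V).1 g
          exact eq_comm
        rw [e]
        exact (isClosed_discrete ({(Φ V).1 g} : Set (K ⧸ V.1))).preimage
          (continuous_quot_mk : Continuous (fun x : K => (QuotientGroup.mk x : K ⧸ V.1)))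
      exact this.isCompact
    · intro V
      have : DiscreteTopology (K ⧸ V.1) := QuotientGroup.discreteTopology V.2.2
      have e : {x : K | (Φ V).1 g = QuotientGroup.mk x} =
          (fun x : K => (QuotientGroup.mk x : K ⧸ V.1)) ⁻¹' {(Φ V).1 g} := by
        ext x
        change (Φ V).1 g = QuotientGroup.mk x ↔ QuotientGroup.mk x = (Φ V).1 g
        exact eq_comm
      rw [e]
      exact (isClosed_discrete ({(Φ V).1 g} : Set (K ⧸ V.1))).preimage
        (continuous_quot_mk : Continuous (fun x : K => (QuotientGroup.mk x : K ⧸ V.1)))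
  choose F hF using hpt
  have hF_one : F 1 = 1 := by
    apply hsep
    intro V
    rw [← hF 1 V, map_one]
    rfl
  have hF_mul : ∀ a b, F (a * b) = F a * F b := by
    intro a b
    apply hsep
    intro V
    rw [← hF (a * b) V, map_mul, hF a V, hF b V]
    rfl
  let Fh : G →* K := { toFun := F, map_one' := hF_one, map_mul' := hF_mul }
  have hcont : Continuous Fh := by
    apply continuous_of_continuousAt_one Fh
    rw [ContinuousAt, map_one]
    intro O hO
    obtain ⟨O', hO', hO'open, h1O'⟩ := mem_nhds_iff.mp hO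
    obtain ⟨N, hN⟩ := ProfiniteGrp.exist_openNormalSubgroup_sub_open_nhds_of_one hO'open h1O'
    let V : ON K := ⟨N.toSubgroup, N.isNormal', N.isOpen'⟩
    have hk : ((Φ V).1.ker : Set G) ∈ nhds (1 : G) :=
      (Φ V).2.mem_nhds (Subgroup.one_mem _)
    rw [Filter.mem_map]
    refine Filter.mem_of_superset hk ?_
    intro g hg
    apply hO'
    apply hN
    have h1 : (Φ V).1 g = 1 := hg
    rw [hF g V] at h1
    exact (QuotientGroup.eq_one_iff (F g)).mp h1
  have hval : ∀ i, F (t i) = f i := by
    intro i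
    apply hsep
    intro V
    rw [← hF (t i) V, hΦ V i]
  refine ⟨⟨Fh, hcont⟩, fun i => hval i, ?_⟩
  intro ψ hψ
  apply ContinuousMonoidHom.ext
  intro g
  change ψ g = F g
  apply hsep
  intro V
  have h1 : (⟨(QuotientGroup.mk' V.1).comp ψ.toMonoidHom, by
      have e : (((QuotientGroup.mk' V.1).comp ψ.toMonoidHom).ker : Set G) =
          (fun x => ψ x) ⁻¹' (V.1 : Set K) := by
        ext x
        change (QuotientGroup.mk' V.1) (ψ x) = 1 ↔ _
        rw [QuotientGroup.mk'_apply, QuotientGroup.eq_one_iff]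
        rfl
      rw [e]
      exact V.2.2.preimage ψ.continuous_toFun⟩ : CH G (K ⧸ V.1)) = Φ V := by
    apply ch_eq_of_gen ht
    intro i
    rw [hΦ V i]
    change (QuotientGroup.mk (ψ (t i)) : K ⧸ V.1) = QuotientGroup.mk (f i)
    rw [hψ i]
  have h2 := congrArg (fun χ : CH G (K ⧸ V.1) => χ.1 g) h1
  rw [← hF g V]
  exact h2

end Pool.Agent.H21.Prof
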