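import Pool.Agent.H21.Prof.Orbits

set_option autoImplicit false

namespace Pool.Agent.H21.Prof

open Function Equiv

variable {G H : Type} [Group G] [TopologicalSpace G] [IsTopologicalGroup G]
  [Group H] [TopologicalSpace H] [IsTopologicalGroup H]

theorem card_perm_fin (k : ℕ) : Nat.card (Perm (Fin k)) = k.factorial := by
  rw [Nat.card_eq_fintype_card, Fintype.card_perm, Fintype.card_fin]

/-- The case of a least exceptional prime `p ≥ 5`. -/
theorem large (L : Link G H 3) {p : ℕ} (hp : p.Prime) (hp5 : 5 ≤ p)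
    (hG : ∀ q : ℕ, q.Prime → q < p → hh G (Z q) = q) (hGp : hh G (Z p) = p ^ 2) : False := by
  have RG := L.reg
  have RH := L.symm.reg
  have hXG : ∀ k, k < p → Xn G k = k.factorial := by
    intro k hk
    rw [Xn, hh_eq_card RG (Perm (Fin k)), card_perm_fin]
    intro q hq hqk
    rw [card_perm_fin, hq.dvd_factorial] at hqk
    exact hG q hq (by omega)
  have hXH : ∀ k, k < p → Xn H k = (k.factorial) ^ 2 := by
    intro k hk
    have h1 := L.card_mul (Perm (Fin k))
    rw [card_perm_fin] at h1
    change Xn G k * Xn H k = _ at h1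
    rw [hXG k hk] at h1
    apply Nat.eq_of_mul_eq_mul_left (Nat.factorial_pos k)
    rw [h1]; ring
  obtain ⟨n, rfl⟩ : ∃ n, p = n + 1 := ⟨p - 1, by omega⟩
  have h1 := arith (Tn H) n (by omega) (by
    intro m hm
    rw [← hXH (m + 1) (by omega), recursion m (RH.fin _)]
    apply Finset.sum_congr rfl
    intro j hj
    rw [hXH (m - j) (by omega)])
  have h2 : (n + 1) * (n.factorial) ^ 2 < Xn H (n + 1) := by
    refine lt_of_lt_of_le h1 ?_
    rw [recursion n (RH.fin _), Finset.sum_range_succ]
    refine le_trans (le_of_eq ?_) (Nat.le_add_right _ _)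
    apply Finset.sum_congr rfl
    intro j hj
    rw [hXH (n - j) (by omega)]
  have h3 : (n + 1) * Nat.card (Perm (Fin (n + 1))) ≤ Xn G (n + 1) := by
    apply sylow_bound RG hp
    · rw [card_perm_fin]
      exact (hp.dvd_factorial).mpr le_rfl
    · rw [card_perm_fin, Nat.factorial_succ, pow_two]
      intro h
      have h4 := Nat.dvd_of_mul_dvd_mul_left (Nat.succ_pos n) h
      rw [hp.dvd_factorial] at h4
      omega
    · exact hGp
    · intro q hq hqd hqp
      rw [card_perm_fin, hq.dvd_factorial] at hqd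
      exact hG q hq (by omega)
  have h4 := L.card_mul (Perm (Fin (n + 1)))
  change Xn G (n + 1) * Xn H (n + 1) = _ at h4
  rw [card_perm_fin, Nat.factorial_succ] at h3 h4
  have hf : 0 < n.factorial := Nat.factorial_pos n
  have h5 : ((n + 1) * ((n + 1) * n.factorial)) * ((n + 1) * (n.factorial) ^ 2) <
      Xn G (n + 1) * Xn H (n + 1) := by
    apply Nat.mul_lt_mul_of_le_of_lt h3 h2
    exact RG.pos _
  rw [h4] at h5
  apply lt_irrefl _ (lt_of_eq_of_lt _ h5)
  ring

end Pool.Agent.H21.Prof
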