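import Pool.Agent.H21.Prof.A5Bound

set_option autoImplicit false

namespace Pool.Agent.H21.Prof

open Function Equiv

variable {G H : Type} [Group G] [TopologicalSpace G] [IsTopologicalGroup G]
  [Group H] [TopologicalSpace H] [IsTopologicalGroup H]

theorem no_a5 (R : Reg G) {q : ℕ} (hq : q.Prime) (h1 : hh G (Z q) = q) (hd : q ∣ 60)
    (φ : CH G A5) : φ.1.range ≠ ⊤ := by
  intro h
  have hsimp : IsSimpleGroup A5 := alternatingGroup.isSimpleGroup (by simp)
  have hnc : ∃ a b : A5, a * b ≠ b * a := by decide +kernel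
  exact no_simple_quot R hq h1 (by rw [card_A5]; exact hd) hnc φ
    (MonoidHom.range_eq_top.mp h)

/-- The case where the least exceptional prime is three. -/
theorem small (L : Link G H 3) (hG2 : hh G (Z 2) = 2) (hG3 : hh G (Z 3) = 9)
    (h5 : (hh G (Z 5) = 5 ∧ hh H (Z 5) = 25) ∨ (hh G (Z 5) = 25 ∧ hh H (Z 5) = 5)) : False := by
  have RG := L.reg
  have RH := L.symm.reg
  have h2 := L.card_mul (Z 2)
  have h3 := L.card_mul (Z 3)
  rw [card_Z, hG2] at h2
  rw [card_Z, hG3] at h3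
  have hH2 : hh H (Z 2) = 4 := by omega
  have hH3 : hh H (Z 3) = 3 := by omega
  have bG := a5_bound RG (no_a5 RG Nat.prime_two hG2 (by norm_num))
  have bH := a5_bound RH (no_a5 RH Nat.prime_three hH3 (by norm_num))
  rw [hG2, hG3] at bG
  rw [hH2, hH3] at bH
  have h60 := L.card_mul A5
  rw [card_A5] at h60
  rcases h5 with ⟨h5G, h5H⟩ | ⟨h5G, h5H⟩
  · rw [h5G] at bG
    rw [h5H] at bH
    have := Nat.mul_le_mul bG bH
    rw [h60] at this
    norm_num at this
  · rw [h5G] at bG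
    rw [h5H] at bH
    have := Nat.mul_le_mul bG bH
    rw [h60] at this
    norm_num at this

/-- The mixed case is impossible in rank three. -/
theorem mixed (L : Link G H 3)
    (hab : ∀ q : ℕ, q.Prime → (hh G (Z q) = q ∧ hh H (Z q) = q ^ 2) ∨
      (hh G (Z q) = q ^ 2 ∧ hh H (Z q) = q)) (h2 : hh G (Z 2) = 2)
    (hex : ∃ p : ℕ, p.Prime ∧ hh G (Z p) = p ^ 2) : False := by
  classical
  let p := Nat.find hex
  have hp : p.Prime ∧ hh G (Z p) = p ^ 2 := Nat.find_spec hex
  have hmin : ∀ q : ℕ, q.Prime → q < p → hh G (Z q) = q := by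
    intro q hq hqp
    have h1 := Nat.find_min hex hqp
    rcases hab q hq with h | h
    · exact h.1
    · exact absurd ⟨hq, h.1⟩ h1
  have hp2 : p ≠ 2 := by
    intro h
    rw [h, h2] at hp
    norm_num at hp
  by_cases hp3 : p = 3
  · rw [hp3] at hp
    apply small L h2 (by rw [hp.2]; norm_num)
    rcases hab 5 Nat.prime_five with h | h
    · exact Or.inl ⟨h.1, by rw [h.2]; norm_num⟩
    · exact Or.inr ⟨by rw [h.1]; norm_num, h.2⟩
  · have h5 : 5 ≤ p := by
      have h3 := hp.1.two_le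
      have h4 : p ≠ 4 := by
        intro h
        have := hp.1
        rw [h] at this
        exact absurd this (by norm_num)
      omega
    exact large L hp.1 h5 hmin hp.2

/-- If a factor has only trivial homomorphisms into `Z q` for some prime `q`, it is trivial. -/
theorem le_of_one (R : Reg G) {q : ℕ} (hq : q.Prime) (h : hh G (Z q) = 1) (r : ℕ)
    (hr : r.Prime) : hh G (Z r) ≤ r := by
  have : NeZero r := ⟨hr.ne_zero⟩
  have : Subsingleton (CH G (Z r)) := ⟨fun φ ψ => by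
    apply ch_ext
    intro g
    rw [no_quot_of_one R hq h, no_quot_of_one R hq h]⟩
  have h2 : hh G (Z r) ≤ 1 := Finite.card_le_one_iff_subsingleton.mpr this
  exact h2.trans hr.one_lt.le

/-- Rank three. -/
theorem free_rank_three [CompactSpace G] [CompactSpace H] (L : Link G H 3) :
    ∃ a b : ℕ, a + b = 3 ∧ IsFree G a ∧ IsFree H b := by
  have RG := L.reg
  have RH := L.symm.reg
  have hswap : (∀ q : ℕ, q.Prime → hh H (Z q) ≤ q) →
      ∃ a b : ℕ, a + b = 3 ∧ IsFree G a ∧ IsFree H b := by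
    intro h
    obtain ⟨a, b, hab, ha, hb⟩ := free_of_procyclic L.symm h
    exact ⟨b, a, by omega, hb, ha⟩
  by_cases h1 : ∃ q : ℕ, q.Prime ∧ hh G (Z q) = 1
  · obtain ⟨q, hq, hq1⟩ := h1
    exact free_of_procyclic L (le_of_one RG hq hq1)
  by_cases h1' : ∃ q : ℕ, q.Prime ∧ hh H (Z q) = 1
  · obtain ⟨q, hq, hq1⟩ := h1'
    exact hswap (le_of_one RH hq hq1)
  push Not at h1 h1'
  have hab : ∀ q : ℕ, q.Prime → (hh G (Z q) = q ∧ hh H (Z q) = q ^ 2) ∨
      (hh G (Z q) = q ^ 2 ∧ hh H (Z q) = q) := by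
    intro q hq
    obtain ⟨a, b, hab, ha, hb⟩ := L.prime_pow hq
    have ha0 : a ≠ 0 := fun h0 => h1 q hq (by rw [ha, h0, pow_zero])
    have hb0 : b ≠ 0 := fun h0 => h1' q hq (by rw [hb, h0, pow_zero])
    have : (a = 1 ∧ b = 2) ∨ (a = 2 ∧ b = 1) := by omega
    rcases this with ⟨rfl, rfl⟩ | ⟨rfl, rfl⟩
    · left; rw [ha, hb, pow_one]; exact ⟨rfl, rfl⟩
    · right; rw [ha, hb, pow_one]; exact ⟨rfl, rfl⟩
  by_cases hG : ∀ q : ℕ, q.Prime → hh G (Z q) = q
  · exact free_of_procyclic L (fun q hq => (hG q hq).le)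
  by_cases hH : ∀ q : ℕ, q.Prime → hh H (Z q) = q
  · exact hswap (fun q hq => (hH q hq).le)
  exfalso
  push Not at hG hH
  obtain ⟨q, hq, hqG⟩ := hG
  obtain ⟨r, hr, hrH⟩ := hH
  have hqG' : hh G (Z q) = q ^ 2 := by
    rcases hab q hq with h | h
    · exact absurd h.1 hqG
    · exact h.1
  have hrH' : hh H (Z r) = r ^ 2 := by
    rcases hab r hr with h | h
    · exact h.2
    · exact absurd h.2 hrH
  rcases hab 2 Nat.prime_two with h | h
  · exact mixed L hab h.1 ⟨q, hq, hqG'⟩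
  · exact mixed L.symm (fun s hs => by
      rcases hab s hs with h' | h'
      · exact Or.inr ⟨h'.2, h'.1⟩
      · exact Or.inl ⟨h'.2, h'.1⟩) h.2 ⟨r, hr, hrH'⟩

/-- Rank at most three. -/
theorem free_rank_le_three [CompactSpace G] [CompactSpace H] {n : ℕ} (hn : n ≤ 3)
    (L : Link G H n) : ∃ a b : ℕ, a + b = n ∧ IsFree G a ∧ IsFree H b := by
  by_cases h3 : n = 3
  · subst h3
    exact free_rank_three L
  have hn2 : n ≤ 2 := by omega
  have RG := L.reg
  have RH := L.symm.reg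
  by_cases h1' : ∃ q : ℕ, q.Prime ∧ hh H (Z q) = 1
  · obtain ⟨q, hq, hq1⟩ := h1'
    obtain ⟨a, b, hab, ha, hb⟩ := free_of_procyclic L.symm (le_of_one RH hq hq1)
    exact ⟨b, a, by omega, hb, ha⟩
  push Not at h1'
  apply free_of_procyclic L
  intro q hq
  obtain ⟨a, b, hab, ha, hb⟩ := L.prime_pow hq
  have hb0 : b ≠ 0 := fun h0 => h1' q hq (by rw [hb, h0, pow_zero])
  have ha1 : a ≤ 1 := by omega
  rw [ha]
  calc q ^ a ≤ q ^ 1 := Nat.pow_le_pow_right hq.pos ha1
    _ = q := pow_one q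

end Pool.Agent.H21.Prof
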