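import Pool.Agent.H21.Prof.SylowBound

set_option autoImplicit false

namespace Pool.Agent.H21.Prof

open Function Equiv

variable {G : Type} [Group G] [TopologicalSpace G] [IsTopologicalGroup G]

/-- Product of two homomorphisms. -/
def cprod {A B : Type} [Group A] [Group B] (φ : CH G A) (ψ : CH G B) : CH G (A × B) :=
  ⟨φ.1.prod ψ.1, Subgroup.isOpen_mono (H₁ := φ.1.ker ⊓ ψ.1.ker) (fun x hx => by
    obtain ⟨h1, h2⟩ := Subgroup.mem_inf.mp hx
    rw [MonoidHom.mem_ker] at h1 h2 ⊢
    rw [MonoidHom.prod_apply, h1, h2]; rfl) (by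
    rw [Subgroup.coe_inf]; exact φ.2.inter ψ.2)⟩

/-- Transitive homomorphisms. -/
def Trans {α : Type} (φ : CH G (Perm α)) : Prop := ∀ x y : α, ∃ g : G, φ.1 g x = y

section orb
variable {α : Type} [Fintype α] [DecidableEq α]

open Classical in
/-- The orbit of a point. -/
noncomputable def orb (φ : CH G (Perm α)) (x : α) : Finset α :=
  Finset.univ.filter (fun y => ∃ g : G, φ.1 g x = y)

omit [DecidableEq α] [IsTopologicalGroup G] in
theorem mem_orb {φ : CH G (Perm α)} {x y : α} : y ∈ orb φ x ↔ ∃ g : G, φ.1 g x = y := by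
  simp [orb]

omit [DecidableEq α] [IsTopologicalGroup G] in
theorem self_mem_orb (φ : CH G (Perm α)) (x : α) : x ∈ orb φ x :=
  mem_orb.mpr ⟨1, by rw [map_one]; rfl⟩

omit [DecidableEq α] [IsTopologicalGroup G] in
theorem orb_inv (φ : CH G (Perm α)) (x : α) (g : G) (y : α) :
    φ.1 g y ∈ orb φ x ↔ y ∈ orb φ x := by
  rw [mem_orb, mem_orb]
  constructor
  · rintro ⟨h, hh⟩
    refine ⟨g⁻¹ * h, ?_⟩
    rw [map_mul, map_inv, Perm.mul_apply, hh]
    exact (φ.1 g).symm_apply_apply y
  · rintro ⟨h, hh⟩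
    refine ⟨g * h, ?_⟩
    rw [map_mul, Perm.mul_apply, hh]

/-- The restriction of a homomorphism to an invariant set. -/
def restr (φ : CH G (Perm α)) (p : α → Prop) (hp : ∀ g x, p (φ.1 g x) ↔ p x) :
    CH G (Perm {x // p x}) :=
  ⟨{ toFun := fun g => (φ.1 g).subtypePerm (hp g)
     map_one' := by
      ext x
      change ((φ.1 1) x : α) = x
      rw [map_one]; rfl
     map_mul' := fun g h => by
      ext x
      change ((φ.1 (g * h)) x : α) = φ.1 g (φ.1 h x)
      rw [map_mul]; rfl },
    Subgroup.isOpen_mono (H₁ := φ.1.ker) (fun g hg => by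
      rw [MonoidHom.mem_ker] at hg ⊢
      ext x
      change ((φ.1 g) x : α) = x
      rw [hg]; rfl) φ.2⟩

/-- Gluing. -/
def glue (p : α → Prop) [DecidablePred p] (φ : CH G (Perm {x // p x}))
    (ψ : CH G (Perm {x // ¬ p x})) : CH G (Perm α) :=
  cmap (Perm.subtypeCongrHom p) (cprod φ ψ)

omit [Fintype α] [DecidableEq α] in
theorem glue_left (p : α → Prop) [DecidablePred p] (φ : CH G (Perm {x // p x}))
    (ψ : CH G (Perm {x // ¬ p x})) (g : G) (x : {x // p x}) :
    (glue p φ ψ).1 g x = φ.1 g x := by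
  change Perm.subtypeCongr (φ.1 g) (ψ.1 g) x = _
  rw [Perm.subtypeCongr.left_apply_subtype]

omit [Fintype α] [DecidableEq α] in
theorem glue_right (p : α → Prop) [DecidablePred p] (φ : CH G (Perm {x // p x}))
    (ψ : CH G (Perm {x // ¬ p x})) (g : G) (x : {x // ¬ p x}) :
    (glue p φ ψ).1 g x = ψ.1 g x := by
  change Perm.subtypeCongr (φ.1 g) (ψ.1 g) x = _
  rw [Perm.subtypeCongr.right_apply_subtype]

/-- Homomorphisms whose orbit of `x` is `S`. -/
theorem orb_bij (x : α) (S : Finset α) (hx : x ∈ S) :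
    Nat.card {φ : CH G (Perm α) // orb φ x = S} =
      Nat.card {φ : CH G (Perm {y // y ∈ S}) // Trans φ} *
        hh G (Perm {y // ¬ y ∈ S}) := by
  rw [hh, ← Nat.card_prod]
  symm
  have horb : ∀ (φ : CH G (Perm {y // y ∈ S})) (ψ : CH G (Perm {y // ¬ y ∈ S})), Trans φ →
      orb (glue (· ∈ S) φ ψ) x = S := by
    intro φ ψ hφ
    ext y
    rw [mem_orb]
    constructor
    · rintro ⟨g, rfl⟩
      rw [glue_left (· ∈ S) φ ψ g ⟨x, hx⟩]
      exact (φ.1 g ⟨x, hx⟩).2
    · intro hy
      obtain ⟨g, hg⟩ := hφ ⟨x, hx⟩ ⟨y, hy⟩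
      refine ⟨g, ?_⟩
      rw [glue_left (· ∈ S) φ ψ g ⟨x, hx⟩, hg]
  apply Nat.card_eq_of_bijective (fun p : {φ : CH G (Perm {y // y ∈ S}) // Trans φ} ×
    CH G (Perm {y // ¬ y ∈ S}) => (⟨glue (· ∈ S) p.1.1 p.2, horb p.1.1 p.2 p.1.2⟩ :
      {φ : CH G (Perm α) // orb φ x = S}))
  constructor
  · rintro ⟨⟨φ, hφ⟩, ψ⟩ ⟨⟨φ', hφ'⟩, ψ'⟩ h
    have h1 : glue (· ∈ S) φ ψ = glue (· ∈ S) φ' ψ' := congrArg Subtype.val h
    have h2 : φ = φ' := by
      apply ch_ext; intro g; ext y
      have : (glue (· ∈ S) φ ψ).1 g y = (glue (· ∈ S) φ' ψ').1 g y := by rw [h1]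
      rw [glue_left, glue_left] at this
      exact this
    have h3 : ψ = ψ' := by
      apply ch_ext; intro g; ext y
      have : (glue (· ∈ S) φ ψ).1 g y = (glue (· ∈ S) φ' ψ').1 g y := by rw [h1]
      rw [glue_right, glue_right] at this
      exact this
    subst h2 h3
    rfl
  · rintro ⟨φ, hφ⟩
    have hp : ∀ g y, φ.1 g y ∈ S ↔ y ∈ S := by
      intro g y
      rw [← hφ]; exact orb_inv φ x g y
    refine ⟨⟨⟨restr φ (· ∈ S) hp, ?_⟩, restr φ (fun y => ¬ y ∈ S)
      (fun g y => not_congr (hp g y))⟩, ?_⟩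
    · rintro ⟨a, ha⟩ ⟨b, hb⟩
      rw [← hφ, mem_orb] at ha hb
      obtain ⟨g, hg⟩ := ha
      obtain ⟨h, hh⟩ := hb
      refine ⟨h * g⁻¹, ?_⟩
      apply Subtype.ext
      change φ.1 (h * g⁻¹) a = b
      rw [← hg, ← hh, map_mul, map_inv, Perm.mul_apply]
      exact congrArg (φ.1 h) ((φ.1 g).symm_apply_apply x)
    · apply Subtype.ext
      apply ch_ext; intro g; ext y
      change (glue (· ∈ S) _ _).1 g y = φ.1 g y
      by_cases hy : y ∈ S
      · rw [glue_left (· ∈ S) _ _ g ⟨y, hy⟩]; rfl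
      · rw [glue_right (· ∈ S) _ _ g ⟨y, hy⟩]; rfl

end orb

/-- Number of homomorphisms to the symmetric group. -/
noncomputable def Xn (G : Type) [Group G] [TopologicalSpace G] (n : ℕ) : ℕ := hh G (Perm (Fin n))

/-- Number of transitive homomorphisms to the symmetric group. -/
noncomputable def Tn (G : Type) [Group G] [TopologicalSpace G] (n : ℕ) : ℕ :=
  Nat.card {φ : CH G (Perm (Fin n)) // Trans φ}

theorem hh_perm (α : Type) [Fintype α] : hh G (Perm α) = Xn G (Fintype.card α) :=
  hh_congr (Fintype.equivFin α).permCongrHom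

theorem trans_cmap_iff {α β : Type} (e : α ≃ β) (φ : CH G (Perm α)) :
    Trans φ ↔ Trans (cmap e.permCongrHom.toMonoidHom φ) := by
  constructor
  · intro h x y
    obtain ⟨g, hg⟩ := h (e.symm x) (e.symm y)
    refine ⟨g, ?_⟩
    change e (φ.1 g (e.symm x)) = y
    rw [hg, Equiv.apply_symm_apply]
  · intro h x y
    obtain ⟨g, hg⟩ := h (e x) (e y)
    refine ⟨g, ?_⟩
    change e (φ.1 g (e.symm (e x))) = e y at hg
    rw [Equiv.symm_apply_apply] at hg
    exact e.injective hg

theorem card_trans (α : Type) [Fintype α] :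
    Nat.card {φ : CH G (Perm α) // Trans φ} = Tn G (Fintype.card α) := by
  apply Nat.card_congr
  exact (congrEquiv (Fintype.equivFin α).permCongrHom).subtypeEquiv
    (fun φ => trans_cmap_iff (Fintype.equivFin α) φ)

theorem card_orb {α : Type} [Fintype α] [DecidableEq α] (x : α) (S : Finset α) (hx : x ∈ S) :
    Nat.card {φ : CH G (Perm α) // orb φ x = S} =
      Tn G S.card * Xn G (Fintype.card α - S.card) := by
  rw [orb_bij x S hx, card_trans, hh_perm]
  congr 2
  · simp
  · rw [Fintype.card_subtype_compl]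
    simp

/-- The recursion for the number of homomorphisms to symmetric groups. -/
theorem recursion (n : ℕ) (hfin : Finite (CH G (Perm (Fin (n + 1))))) :
    Xn G (n + 1) = ∑ j ∈ Finset.range (n + 1), n.choose j * (Tn G (j + 1) * Xn G (n - j)) := by
  classical
  have := Fintype.ofFinite (CH G (Perm (Fin (n + 1))))
  have h1 : Xn G (n + 1) = (Finset.univ : Finset (CH G (Perm (Fin (n + 1))))).card := by
    rw [Xn, hh, Nat.card_eq_fintype_card, Finset.card_univ]
  rw [h1, Finset.card_eq_sum_card_fiberwise (f := fun φ => (orb φ 0).erase 0)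
    (t := ((Finset.univ : Finset (Fin (n + 1))).erase 0).powerset)]
  · have h2 : ∀ S ∈ ((Finset.univ : Finset (Fin (n + 1))).erase 0).powerset,
        (Finset.univ.filter (fun φ : CH G (Perm (Fin (n + 1))) => (orb φ 0).erase 0 = S)).card =
        Tn G (S.card + 1) * Xn G (n - S.card) := by
      intro S hS
      rw [Finset.mem_powerset] at hS
      have h0 : (0 : Fin (n + 1)) ∉ S := fun h => by
        have := hS h
        simp at this
      have h3 := card_orb (G := G) (0 : Fin (n + 1)) (insert 0 S) (Finset.mem_insert_self 0 S)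
      rw [Finset.card_insert_of_notMem h0, Fintype.card_fin, Nat.add_sub_add_right] at h3
      rw [← h3, Nat.card_eq_fintype_card, Fintype.card_subtype]
      congr 1
      ext φ
      simp only [Finset.mem_filter, Finset.mem_univ, true_and]
      constructor
      · intro h
        rw [← h, Finset.insert_erase (self_mem_orb φ 0)]
      · intro h
        rw [h, Finset.erase_insert h0]
    rw [Finset.sum_congr rfl h2,
      Finset.sum_powerset_apply_card (fun j => Tn G (j + 1) * Xn G (n - j))]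
    have h4 : ((Finset.univ : Finset (Fin (n + 1))).erase 0).card = n := by
      rw [Finset.card_erase_of_mem (Finset.mem_univ _)]
      simp
    rw [h4]
    simp
  · intro φ _
    simp only [Finset.coe_powerset, Set.mem_preimage, Set.mem_powerset_iff]
    intro y hy
    simp only [Finset.coe_erase, Finset.coe_univ] at hy ⊢
    exact ⟨trivial, hy.2⟩

/-- The arithmetic inequality behind the counting of intransitive homomorphisms. -/
theorem arith (T : ℕ → ℕ) (n : ℕ) (hn : 3 ≤ n)
    (h : ∀ m, m < n → ((m + 1).factorial) ^ 2 =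
      ∑ j ∈ Finset.range (m + 1), m.choose j * (T (j + 1) * ((m - j).factorial) ^ 2)) :
    (n + 1) * (n.factorial) ^ 2 <
      ∑ j ∈ Finset.range n, n.choose j * (T (j + 1) * ((n - j).factorial) ^ 2) := by
  obtain ⟨m, rfl⟩ : ∃ m, n = m + 3 := ⟨n - 3, by omega⟩
  have hT1 : T 1 = 1 := by
    have := h 0 (by omega)
    simpa using this.symm
  have hT2 : T 2 = 3 := by
    have := h 1 (by omega)
    rw [Finset.sum_range_succ, Finset.sum_range_succ, Finset.sum_range_zero] at this
    simp [hT1] at this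
    omega
  have h1 := h (m + 2) (by omega)
  -- comparison of coefficients
  have hco : ∀ j ∈ Finset.range (m + 3),
      (m + 3).choose j * (T (j + 1) * ((m + 3 - j).factorial) ^ 2) =
      (m + 3) * ((m + 2).choose j * (T (j + 1) * ((m + 2 - j).factorial) ^ 2)) +
      (m + 2 - j) * ((m + 3) * ((m + 2).choose j *
        (T (j + 1) * ((m + 2 - j).factorial) ^ 2))) := by
    intro j hj
    rw [Finset.mem_range] at hj
    obtain ⟨i, hi⟩ : ∃ i, m + 2 = j + i := ⟨m + 2 - j, by omega⟩
    have e1 : m + 3 - j = i + 1 := by omega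
    have e2 : m + 2 - j = i := by omega
    rw [e1, e2, Nat.factorial_succ]
    have e3 : (m + 3).choose j * (i + 1) = (m + 3) * (m + 2).choose j := by
      have := Nat.choose_mul_succ_eq (m + 2) j
      have e4 : m + 2 + 1 - j = i + 1 := by omega
      rw [e4] at this
      rw [← this]; ring
    calc (m + 3).choose j * (T (j + 1) * ((i + 1) * i.factorial) ^ 2)
        = ((m + 3).choose j * (i + 1)) * ((i + 1) * (T (j + 1) * i.factorial ^ 2)) := by ring
      _ = ((m + 3) * (m + 2).choose j) * ((i + 1) * (T (j + 1) * i.factorial ^ 2)) := by rw [e3]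
      _ = _ := by ring
  rw [Finset.sum_congr rfl hco, Finset.sum_add_distrib, ← Finset.mul_sum, ← h1]
  -- the extra terms
  have h2 : (m + 3).factorial ^ 2 < ∑ j ∈ Finset.range (m + 3),
      (m + 2 - j) * ((m + 3) * ((m + 2).choose j *
        (T (j + 1) * ((m + 2 - j).factorial) ^ 2))) := by
    have h3 : (m + 2 - 0) * ((m + 3) * ((m + 2).choose 0 *
        (T (0 + 1) * ((m + 2 - 0).factorial) ^ 2))) + (m + 2 - 1) * ((m + 3) * ((m + 2).choose 1 *
        (T (1 + 1) * ((m + 2 - 1).factorial) ^ 2))) ≤ ∑ j ∈ Finset.range (m + 3),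
      (m + 2 - j) * ((m + 3) * ((m + 2).choose j *
        (T (j + 1) * ((m + 2 - j).factorial) ^ 2))) := by
      have hsub : Finset.range 2 ⊆ Finset.range (m + 3) :=
        Finset.range_subset_range.mpr (by omega)
      have := Finset.sum_le_sum_of_subset (f := fun j => (m + 2 - j) * ((m + 3) *
        ((m + 2).choose j * (T (j + 1) * ((m + 2 - j).factorial) ^ 2)))) hsub
      rw [Finset.sum_range_succ, Finset.sum_range_succ, Finset.sum_range_zero, zero_add] at this
      exact this
    refine lt_of_lt_of_le ?_ h3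
    have e1 : m + 2 - 1 = m + 1 := by omega
    rw [e1, Nat.sub_zero, hT1, hT2, Nat.choose_zero_right, Nat.choose_one_right,
      show m + 3 = (m + 2) + 1 by ring, Nat.factorial_succ (m + 2),
      show m + 2 = (m + 1) + 1 by ring, Nat.factorial_succ (m + 1)]
    have hf : 0 < (m + 1).factorial := Nat.factorial_pos _
    generalize (m + 1).factorial = F at hf
    have e2 : (m + 1 + 1) * ((m + 1 + 1 + 1) * (1 * (1 * ((m + 1 + 1) * F) ^ 2))) +
        (m + 1) * ((m + 1 + 1 + 1) * ((m + 1 + 1) * (3 * F ^ 2))) =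
        ((m + 1 + 1 + 1) * ((m + 1 + 1) * F)) ^ 2 +
          (m + 3) * (m + 2) * F ^ 2 * (2 * m + 1) := by ring
    have e3 : 0 < (m + 3) * (m + 2) * F ^ 2 * (2 * m + 1) := by positivity
    rw [e2]
    omega
  have h5 : (m + 3) * (m + 2 + 1).factorial ^ 2 + (m + 3).factorial ^ 2 =
      (m + 3 + 1) * (m + 3).factorial ^ 2 := by
    rw [show m + 2 + 1 = m + 3 by ring]; ring
  omega

end Pool.Agent.H21.Prof
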