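import Pool.Agent.H21.Prof.Basic

set_option autoImplicit false

namespace Pool.Agent.H21.Prof

open Function

variable {G : Type} [Group G] [TopologicalSpace G] [IsTopologicalGroup G]

/-- The cyclic group of order `q`, multiplicatively. -/
abbrev Z (q : ℕ) : Type := Multiplicative (ZMod q)

/-- The number of homomorphisms predicted by multiplicativity. -/
noncomputable def cc (G : Type) [Group G] [TopologicalSpace G] (k : ℕ) : ℕ :=
  (k.primeFactorsList.map (fun q => hh G (Z q))).prod

omit [IsTopologicalGroup G] in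
theorem cc_mul {a b : ℕ} (ha : a ≠ 0) (hb : b ≠ 0) : cc G (a * b) = cc G a * cc G b := by
  unfold cc
  rw [((Nat.perm_primeFactorsList_mul ha hb).map _).prod_eq, List.map_append, List.prod_append]

omit [IsTopologicalGroup G] in
theorem cc_one : cc G 1 = 1 := by
  unfold cc
  rw [Nat.primeFactorsList_one]; rfl

omit [IsTopologicalGroup G] in
theorem cc_prime {q : ℕ} (hq : q.Prime) : cc G q = hh G (Z q) := by
  unfold cc
  rw [Nat.primeFactorsList_prime hq]
  simp

omit [IsTopologicalGroup G] in
theorem cc_pow {a : ℕ} (ha : a ≠ 0) (k : ℕ) : cc G (a ^ k) = cc G a ^ k := by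
  induction k with
  | zero => simp [cc_one]
  | succ k ih => rw [pow_succ, cc_mul (pow_ne_zero _ ha) ha, ih, pow_succ]

omit [IsTopologicalGroup G] in
theorem cc_eq_pow (m : ℕ) (k : ℕ) (hk : k ≠ 0)
    (h : ∀ q : ℕ, q.Prime → q ∣ k → hh G (Z q) = q ^ m) : cc G k = k ^ m := by
  induction k using Nat.recOnMul with
  | zero => exact absurd rfl hk
  | one => simp [cc_one]
  | prime p hp => rw [cc_prime hp]; exact h p hp dvd_rfl
  | mul a b iha ihb =>
    have ha : a ≠ 0 := fun h0 => hk (by rw [h0, zero_mul])
    have hb : b ≠ 0 := fun h0 => hk (by rw [h0, mul_zero])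
    rw [cc_mul ha hb, iha ha (fun q hq hd => h q hq (hd.mul_right b)),
      ihb hb (fun q hq hd => h q hq (hd.mul_left a)), mul_pow]

/-- Groups of prime order. -/
theorem hh_prime {q : ℕ} (hq : q.Prime) {A : Type} [Group A] (hA : Nat.card A = q) :
    hh G A = hh G (Z q) := by
  have : Fact q.Prime := ⟨hq⟩
  have h2 : Nat.card (Z q) = q := by
    rw [Nat.card_congr Multiplicative.toAdd, Nat.card_zmod]
  exact hh_congr (mulEquivOfPrimeCardEq hA h2)

theorem card_Z (q : ℕ) : Nat.card (Z q) = q := by
  rw [Nat.card_congr Multiplicative.toAdd, Nat.card_zmod]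

theorem Reg.comm_aux (R : Reg G) (k : ℕ) : ∀ (A : Type) [CommGroup A] [Finite A],
    Nat.card A = k → hh G A = cc G k := by
  induction k using Nat.strong_induction_on with
  | _ k ih =>
    intro A _ _ hA
    by_cases h1 : k = 1
    · subst h1
      have : Subsingleton A := (Nat.card_eq_one_iff_unique.mp hA).1
      rw [hh_subsingleton, cc_one]
    · have hk0 : k ≠ 0 := by
        rw [← hA]; exact Nat.card_pos.ne'
      obtain ⟨q, hq, hqk⟩ := Nat.exists_prime_and_dvd h1
      have : Fact q.Prime := ⟨hq⟩
      obtain ⟨x, hx⟩ := exists_prime_orderOf_dvd_card' (G := A) q (by rw [hA]; exact hqk)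
      have hN : Nat.card (Subgroup.zpowers x) = q := by rw [Nat.card_zpowers, hx]
      have hc := Subgroup.card_eq_card_quotient_mul_card_subgroup (Subgroup.zpowers x)
      rw [hA, hN] at hc
      have hlt : Nat.card (A ⧸ Subgroup.zpowers x) < k := by
        rw [hc]
        have h0 : 0 < Nat.card (A ⧸ Subgroup.zpowers x) := Nat.card_pos
        nlinarith [hq.two_le]
      rw [R.mul_quot (Subgroup.zpowers x), ih _ hlt _ rfl, hh_prime hq hN, ← cc_prime hq,
        ← cc_mul Nat.card_pos.ne' hq.ne_zero, ← hc]

theorem Reg.comm (R : Reg G) (A : Type) [CommGroup A] [Finite A] :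
    hh G A = cc G (Nat.card A) := R.comm_aux _ A rfl

theorem Reg.solv_aux (R : Reg G) (k : ℕ) : ∀ (A : Type) [Group A] [Finite A] [Group.IsSolvable A],
    Nat.card A = k → hh G A = cc G k := by
  induction k using Nat.strong_induction_on with
  | _ k ih =>
    intro A _ _ _ hA
    by_cases h1 : k = 1
    · subst h1
      have : Subsingleton A := (Nat.card_eq_one_iff_unique.mp hA).1
      rw [hh_subsingleton, cc_one]
    · have : Nontrivial A := by
        rw [← Finite.one_lt_card_iff_nontrivial, hA]
        have : 0 < Nat.card A := Nat.card_pos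
        omega
      have hlt := Group.IsSolvable.commutator_lt_top_of_nontrivial A
      have hc := Subgroup.card_eq_card_quotient_mul_card_subgroup (commutator A)
      have hcard : Nat.card (commutator A) < k := by
        by_contra hcon
        push Not at hcon
        rw [← hA] at hcon
        exact hlt.ne (Subgroup.eq_top_of_le_card _ hcon)
      have e1 : hh G (A ⧸ commutator A) = cc G (Nat.card (A ⧸ commutator A)) := by
        have := R.comm (Abelianization A)
        exact this
      rw [R.mul_quot (commutator A), e1, ih _ hcard _ rfl,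
        ← cc_mul Nat.card_pos.ne' Nat.card_pos.ne', ← hc, hA]

theorem Reg.solv (R : Reg G) (A : Type) [Group A] [Finite A] [Group.IsSolvable A] :
    hh G A = cc G (Nat.card A) := R.solv_aux _ A rfl

/-- Possible values of the number of homomorphisms into `Z q`. -/
theorem Link.prime_pow {H : Type} [Group H] [TopologicalSpace H] [IsTopologicalGroup H]
    {n : ℕ} (L : Link G H n) {q : ℕ} (hq : q.Prime) :
    ∃ a b : ℕ, a + b = n ∧ hh G (Z q) = q ^ a ∧ hh H (Z q) = q ^ b := by
  have : NeZero q := ⟨hq.ne_zero⟩
  have h := L.card_mul (Z q)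
  rw [card_Z] at h
  have hd : hh G (Z q) ∣ q ^ n := ⟨_, h.symm⟩
  obtain ⟨a, ha, hae⟩ := (Nat.dvd_prime_pow hq).mp hd
  refine ⟨a, n - a, by omega, hae, ?_⟩
  rw [hae] at h
  have h3 : q ^ n = q ^ a * q ^ (n - a) := by rw [← pow_add]; congr 1; omega
  rw [h3] at h
  exact Nat.eq_of_mul_eq_mul_left (pow_pos hq.pos a) h

end Pool.Agent.H21.Prof
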