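import Pool.Agent.H21.Prof.Free

set_option autoImplicit false

namespace Pool.Agent.H21.Prof

open Function

/-- The universal property of the free profinite product (targets in `Type`). -/
def IsCoprod (G H P : Type) [Group G] [TopologicalSpace G]
    [Group H] [TopologicalSpace H] [Group P] [TopologicalSpace P]
    (iG : ContinuousMonoidHom G P) (iH : ContinuousMonoidHom H P) : Prop :=
  ∀ (K : Type) [Group K] [TopologicalSpace K] [IsTopologicalGroup K] [CompactSpace K]
    [T2Space K] [TotallyDisconnectedSpace K]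
    (f : ContinuousMonoidHom G K) (g : ContinuousMonoidHom H K),
    ∃! φ : ContinuousMonoidHom P K, (∀ x, φ (iG x) = f x) ∧ (∀ y, φ (iH y) = g y)

section
variable {G : Type} [Group G] [TopologicalSpace G] [IsTopologicalGroup G]

/-- A homomorphism with open kernel is continuous for the discrete topology. -/
def toC {A : Type} [Group A] [TopologicalSpace A] [DiscreteTopology A] (φ : CH G A) :
    ContinuousMonoidHom G A :=
  ⟨φ.1, by
    apply continuous_of_continuousAt_one φ.1
    rw [ContinuousAt, map_one, nhds_discrete A, Filter.tendsto_pure]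
    exact φ.2.mem_nhds (Subgroup.one_mem _)⟩

/-- The converse. -/
def ofC {A : Type} [Group A] [TopologicalSpace A] [DiscreteTopology A]
    (φ : ContinuousMonoidHom G A) : CH G A :=
  ⟨φ.toMonoidHom, by
    have e : ((φ.toMonoidHom).ker : Set G) = (fun x => φ x) ⁻¹' ({1} : Set A) := by
      ext x; rfl
    rw [e]
    exact (isOpen_discrete _).preimage φ.continuous_toFun⟩

@[simp] theorem toC_apply {A : Type} [Group A] [TopologicalSpace A] [DiscreteTopology A]
    (φ : CH G A) (g : G) : toC φ g = φ.1 g := rfl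

@[simp] theorem ofC_apply {A : Type} [Group A] [TopologicalSpace A] [DiscreteTopology A]
    (φ : ContinuousMonoidHom G A) (g : G) : (ofC φ).1 g = φ g := rfl

end

section
variable {G H P : Type} [Group G] [TopologicalSpace G] [IsTopologicalGroup G]
    [Group H] [TopologicalSpace H] [IsTopologicalGroup H]
    [Group P] [TopologicalSpace P] [IsTopologicalGroup P]

theorem exists_equiv (iG : ContinuousMonoidHom G P) (iH : ContinuousMonoidHom H P)
    (hP : IsCoprod G H P iG iH) (n : ℕ) (ι : Fin n → P)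
    (hι : ∀ (K : Type) [Group K] [TopologicalSpace K] [IsTopologicalGroup K] [CompactSpace K]
      [T2Space K] [TotallyDisconnectedSpace K] (f : Fin n → K),
      ∃! φ : ContinuousMonoidHom P K, ∀ i, φ (ι i) = f i)
    (A : Type) [Group A] [Finite A] :
    ∃ E : (CH G A × CH H A) ≃ (Fin n → A), ∀ (φ : CH G A) (ψ : CH H A) (Θ : CH P A),
      (∀ x, Θ.1 (iG x) = φ.1 x) → (∀ y, Θ.1 (iH y) = ψ.1 y) →
        E (φ, ψ) = fun i => Θ.1 (ι i) := by
  let _ : TopologicalSpace A := ⊥
  have : DiscreteTopology A := ⟨rfl⟩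
  have h1 := fun (p : CH G A × CH H A) => hP A (toC p.1) (toC p.2)
  choose Φ hΦ hΦu using h1
  have h2 := fun (t : Fin n → A) => hι A t
  choose Ψ hΨ hΨu using h2
  have hΦ1 : ∀ (p : CH G A × CH H A) x, Φ p (iG x) = p.1.1 x := fun p x => (hΦ p).1 x
  have hΦ2 : ∀ (p : CH G A × CH H A) x, Φ p (iH x) = p.2.1 x := fun p x => (hΦ p).2 x
  refine ⟨{ toFun := fun p i => Φ p (ι i)
            invFun := fun t => (ofC ((Ψ t).comp iG), ofC ((Ψ t).comp iH))
            left_inv := ?_
            right_inv := ?_ }, ?_⟩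
  · intro p
    have h3 : Ψ (fun i => Φ p (ι i)) = Φ p :=
      (hΨu (fun i => Φ p (ι i)) (Φ p) (fun i => rfl)).symm
    apply Prod.ext
    · apply ch_ext
      intro g
      change Ψ (fun i => Φ p (ι i)) (iG g) = p.1.1 g
      rw [h3, hΦ1]
    · apply ch_ext
      intro g
      change Ψ (fun i => Φ p (ι i)) (iH g) = p.2.1 g
      rw [h3, hΦ2]
  · intro t
    funext i
    have h3 : Ψ t = Φ (ofC ((Ψ t).comp iG), ofC ((Ψ t).comp iH)) := by
      apply hΦu
      exact ⟨fun x => rfl, fun y => rfl⟩
    change Φ (ofC ((Ψ t).comp iG), ofC ((Ψ t).comp iH)) (ι i) = t i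
    rw [← h3]
    exact hΨ t i
  · intro φ ψ Θ h3 h4
    funext i
    change Φ (φ, ψ) (ι i) = Θ.1 (ι i)
    have h5 : toC Θ = Φ (φ, ψ) := by
      apply hΦu
      exact ⟨fun x => h3 x, fun y => h4 y⟩
    rw [← h5]; rfl

theorem exists_ext (iG : ContinuousMonoidHom G P) (iH : ContinuousMonoidHom H P)
    (hP : IsCoprod G H P iG iH) {A : Type} [Group A] [Finite A] (φ : CH G A) (ψ : CH H A) :
    ∃ Θ : CH P A, (∀ x, Θ.1 (iG x) = φ.1 x) ∧ (∀ y, Θ.1 (iH y) = ψ.1 y) := by
  let _ : TopologicalSpace A := ⊥
  have : DiscreteTopology A := ⟨rfl⟩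
  obtain ⟨Θ, hΘ, _⟩ := hP A (toC φ) (toC ψ)
  exact ⟨ofC Θ, hΘ.1, hΘ.2⟩

/-- From the universal properties to the natural family of bijections. -/
theorem exists_link (iG : ContinuousMonoidHom G P) (iH : ContinuousMonoidHom H P)
    (hP : IsCoprod G H P iG iH) (n : ℕ) (ι : Fin n → P)
    (hι : ∀ (K : Type) [Group K] [TopologicalSpace K] [IsTopologicalGroup K] [CompactSpace K]
      [T2Space K] [TotallyDisconnectedSpace K] (f : Fin n → K),
      ∃! φ : ContinuousMonoidHom P K, ∀ i, φ (ι i) = f i) :
    Nonempty (Link G H n) := by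
  choose E hE using exists_equiv iG iH hP n ι hι
  refine ⟨⟨fun A _ _ => E A, ?_⟩⟩
  intro A B _ _ _ _ π φ ψ
  obtain ⟨Θ, h1, h2⟩ := exists_ext iG iH hP φ ψ
  rw [hE B (cmap π φ) (cmap π ψ) (cmap π Θ) (fun x => by rw [cmap_apply, h1]; rfl)
    (fun y => by rw [cmap_apply, h2]; rfl), hE A φ ψ Θ h1 h2]
  rfl

end

/-- If all `hh G (Z q)` are at most `q`, both factors are free. -/
theorem free_of_procyclic {G H : Type} [Group G] [TopologicalSpace G] [IsTopologicalGroup G]
    [CompactSpace G]
    [Group H] [TopologicalSpace H] [IsTopologicalGroup H] [CompactSpace H] {n : ℕ}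
    (L : Link G H n) (h : ∀ q : ℕ, q.Prime → hh G (Z q) ≤ q) :
    ∃ a b : ℕ, a + b = n ∧ IsFree G a ∧ IsFree H b := by
  have RG := L.reg
  have RH := L.symm.reg
  by_cases h1 : ∃ q : ℕ, q.Prime ∧ hh G (Z q) = 1
  · obtain ⟨q, hq, hq1⟩ := h1
    have hG : ∀ (A : Type) [Group A] [Finite A], hh G A = 1 := by
      intro A _ _
      have : Subsingleton (CH G A) := ⟨fun φ ψ => by
        apply ch_ext
        intro g
        rw [no_quot_of_one RG hq hq1, no_quot_of_one RG hq hq1]⟩
      have h2 : hh G A ≤ 1 := Finite.card_le_one_iff_subsingleton.mpr this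
      have h3 := RG.pos A
      omega
    refine ⟨0, n, by omega, isFree_of_card RG 0 (fun A _ _ => by rw [hG A, pow_zero]),
      isFree_of_card RH n (fun A _ _ => by
        have := L.card_mul A
        rw [hG A, one_mul] at this
        exact this)⟩
  · push Not at h1
    have hq : ∀ q : ℕ, q.Prime → hh G (Z q) = q ∧ 1 ≤ n := by
      intro q hq
      obtain ⟨a, b, hab, ha, hb⟩ := L.prime_pow hq
      have h2 := h q hq
      have h3 := h1 q hq
      rw [ha] at h2 h3
      have ha0 : a ≠ 0 := fun h0 => h3 (by rw [h0, pow_zero])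
      have ha1 : a ≤ 1 := by
        by_contra hcon
        push Not at hcon
        have : q ^ 1 < q ^ a := Nat.pow_lt_pow_right hq.one_lt hcon
        rw [pow_one] at this
        omega
      have ha2 : a = 1 := by omega
      subst ha2
      rw [ha, pow_one]
      exact ⟨rfl, by omega⟩
    have hn : 1 ≤ n := (hq 2 Nat.prime_two).2
    have hG : ∀ (A : Type) [Group A] [Finite A], hh G A = Nat.card A := fun A _ _ =>
      hh_eq_card RG A (fun q hq1 _ => (hq q hq1).1)
    refine ⟨1, n - 1, by omega, isFree_of_card RG 1 (fun A _ _ => by rw [hG A, pow_one]),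
      isFree_of_card RH (n - 1) (fun A _ _ => by
        have := L.card_mul A
        rw [hG A] at this
        have h2 : Nat.card A ^ n = Nat.card A * Nat.card A ^ (n - 1) := by
          rw [← pow_succ']
          congr 1
          omega
        rw [h2] at this
        exact Nat.eq_of_mul_eq_mul_left Nat.card_pos this)⟩

end Pool.Agent.H21.Prof
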