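import Pool.Agent.H21.Prof.Count

set_option autoImplicit false

namespace Pool.Agent.H21.Prof

open Function

variable {G : Type} [Group G] [TopologicalSpace G] [IsTopologicalGroup G]

section twist
variable (B : Type) [Group B] (q : ℕ)

/-- Left translation on functions. -/
def trans : B →* MulAut (B → Z q) where
  toFun g :=
    { toFun := fun v x => v (g⁻¹ * x)
      invFun := fun v x => v (g * x)
      left_inv := fun v => by funext x; simp
      right_inv := fun v => by funext x; simp
      map_mul' := fun v w => rfl }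
  map_one' := by
    ext v x; simp
  map_mul' g h := by
    ext v x; simp [mul_assoc]

@[simp] theorem trans_apply (g : B) (v : B → Z q) (x : B) : trans B q g v x = v (g⁻¹ * x) := rfl

variable [Fintype B]

/-- The functions with product one. -/
def aug : Subgroup (B → Z q) where
  carrier := {v | ∏ x, v x = 1}
  mul_mem' := fun {v w} hv hw => by
    change ∏ x, (v * w) x = 1
    change ∏ x, v x = 1 at hv
    change ∏ x, w x = 1 at hw
    simp only [Pi.mul_apply, Finset.prod_mul_distrib]
    rw [hv, hw, one_mul]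
  one_mem' := by simp
  inv_mem' := fun {v} hv => by
    change ∏ x, v⁻¹ x = 1
    change ∏ x, v x = 1 at hv
    simp only [Pi.inv_apply, Finset.prod_inv_distrib]
    rw [hv, inv_one]

omit [Group B] in
theorem mem_aug {v : B → Z q} : v ∈ aug B q ↔ ∏ x, v x = 1 := Iff.rfl

theorem prod_trans (g : B) (v : B → Z q) : ∏ x, trans B q g v x = ∏ x, v x := by
  simp only [trans_apply]
  exact Fintype.prod_equiv (Equiv.mulLeft g⁻¹) _ _ (fun x => rfl)

/-- Translation on the augmentation subgroup. -/
def transAug : B →* MulAut (aug B q) where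
  toFun g :=
    { toFun := fun v => ⟨trans B q g v.1, by rw [mem_aug, prod_trans]; exact v.2⟩
      invFun := fun v => ⟨trans B q g⁻¹ v.1, by rw [mem_aug, prod_trans]; exact v.2⟩
      left_inv := fun v => by
        apply Subtype.ext; funext x
        change v.1 (g⁻¹ * ((g⁻¹)⁻¹ * x)) = v.1 x
        simp
      right_inv := fun v => by
        apply Subtype.ext; funext x
        change v.1 ((g⁻¹)⁻¹ * (g⁻¹ * x)) = v.1 x
        simp
      map_mul' := fun v w => rfl }
  map_one' := by
    apply MulEquiv.ext
    intro v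
    apply Subtype.ext; funext x
    change v.1 (1⁻¹ * x) = v.1 x
    simp
  map_mul' g h := by
    apply MulEquiv.ext
    intro v
    apply Subtype.ext; funext x
    change v.1 ((g * h)⁻¹ * x) = v.1 (h⁻¹ * (g⁻¹ * x))
    simp [mul_assoc]

@[simp] theorem transAug_apply (g : B) (v : aug B q) (x : B) :
    (transAug B q g v).1 x = v.1 (g⁻¹ * x) := rfl

end twist

/-- If `hh G (Z q) = 1` for some prime `q`, then `G` has no nontrivial finite quotient. -/
theorem no_quot_of_one (R : Reg G) {q : ℕ} (hq : q.Prime) (h1 : hh G (Z q) = 1)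
    {B : Type} [Group B] [Finite B] (φ : CH G B) (g : G) : φ.1 g = 1 := by
  classical
  have := Fintype.ofFinite B
  have : NeZero q := ⟨hq.ne_zero⟩
  have : Fact (1 < q) := ⟨hq.one_lt⟩
  by_contra hg
  have hM : hh G (B → Z q) = 1 := by
    rw [R.comm (B → Z q)]
    have : Nat.card (B → Z q) = q ^ Nat.card B := by
      rw [Nat.card_fun, card_Z]
    rw [this, cc_pow hq.ne_zero, cc_prime hq, h1, one_pow]
  have : Finite ((B → Z q) ⋊[trans B q] B) :=
    Finite.of_equiv _ (SemidirectProduct.equivProd (φ := trans B q)).symm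
  let π : (B → Z q) ⋊[trans B q] B →* B := SemidirectProduct.rightHom
  have hπ : Surjective π := SemidirectProduct.rightHom_surjective
  have hk : hh G π.ker = hh G (B → Z q) := by
    have e : (B → Z q) ≃* π.ker :=
      (MonoidHom.ofInjective (SemidirectProduct.inl_injective (φ := trans B q))).trans
        (MulEquiv.subgroupCongr SemidirectProduct.range_inl_eq_ker_rightHom)
    exact (hh_congr e).symm
  have hL := R.lift ((B → Z q) ⋊[trans B q] B) B π hπ φ
  rw [hk, hM] at hL
  let δ : B → Z q := fun x => if x = 1 then Multiplicative.ofAdd 1 else 1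
  let φ1 : CH G ((B → Z q) ⋊[trans B q] B) := cmap SemidirectProduct.inr φ
  let φ2 : CH G ((B → Z q) ⋊[trans B q] B) :=
    cmap ((MulAut.conj (SemidirectProduct.inl δ : (B → Z q) ⋊[trans B q] B)).toMonoidHom.comp
    SemidirectProduct.inr) φ
  have e1 : cmap π φ1 = φ := by
    apply ch_ext; intro x; rfl
  have e2 : cmap π φ2 = φ := by
    apply ch_ext; intro x
    change (1 : B) * φ.1 x * (1 : B)⁻¹ = φ.1 x
    simp
  have hss : Subsingleton {φ' : CH G ((B → Z q) ⋊[trans B q] B) // cmap π φ' = φ} :=
    (Nat.card_eq_one_iff_unique.mp hL).1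
  have h12 : φ1 = φ2 := by
    have := hss.elim ⟨φ1, e1⟩ ⟨φ2, e2⟩
    exact congrArg Subtype.val this
  have h3 := congrArg (fun ψ : CH G ((B → Z q) ⋊[trans B q] B) => (ψ.1 g).left 1) h12
  simp only [φ1, φ2, cmap_apply, SemidirectProduct.left_inr, MonoidHom.comp_apply,
    MulEquiv.coe_toMonoidHom, MulAut.conj_apply, SemidirectProduct.mul_left,
    SemidirectProduct.left_inl, SemidirectProduct.right_inl, SemidirectProduct.inv_left,
    SemidirectProduct.mul_right, SemidirectProduct.right_inr] at h3
  simp [δ, hg] at h3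
  have h4 : (0 : ZMod q) = 1 := congrArg Multiplicative.toAdd h3
  exact zero_ne_one h4

/-- The cocycle construction: too many lifts. -/
theorem no_surj_aux (R : Reg G) {q : ℕ} (hq : q.Prime) (h1 : hh G (Z q) = q)
    {B : Type} [Group B] [Finite B] (hB : q ∣ Nat.card B) (φ : CH G B)
    (hφ : Surjective φ.1) (χ : CH G (Z q)) (u : G) (hu : φ.1 u = 1) (hχ : χ.1 u ≠ 1) : False := by
  classical
  have := Fintype.ofFinite B
  have : NeZero q := ⟨hq.ne_zero⟩
  have : Fact q.Prime := ⟨hq⟩
  have hcards : Nat.card (B → Z q) = q ^ Nat.card B := by rw [Nat.card_fun, card_Z]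
  have hI : hh G (aug B q) = Nat.card (aug B q) := by
    rw [R.comm (aug B q), cc_eq_pow 1 _ Nat.card_pos.ne', pow_one]
    intro r hr hrd
    have h2 : Nat.card (aug B q) ∣ q ^ Nat.card B := by
      rw [← hcards]; exact Subgroup.card_subgroup_dvd_card _
    have h3 : r = q := (Nat.prime_dvd_prime_iff_eq hr hq).mp (hr.dvd_of_dvd_pow (hrd.trans h2))
    rw [h3, h1, pow_one]
  have : Finite ((aug B q) ⋊[transAug B q] B) :=
    Finite.of_equiv _ (SemidirectProduct.equivProd (φ := transAug B q)).symm
  let π : (aug B q) ⋊[transAug B q] B →* B := SemidirectProduct.rightHom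
  have hπ : Surjective π := SemidirectProduct.rightHom_surjective
  have hk : hh G π.ker = hh G (aug B q) := by
    have e : (aug B q) ≃* π.ker :=
      (MonoidHom.ofInjective (SemidirectProduct.inl_injective (φ := transAug B q))).trans
        (MulEquiv.subgroupCongr SemidirectProduct.range_inl_eq_ker_rightHom)
    exact (hh_congr e).symm
  have hL := R.lift ((aug B q) ⋊[transAug B q] B) B π hπ φ
  rw [hk, hI] at hL
  have hlt : Nat.card (aug B q) < Nat.card (B → Z q) := by
    rcases lt_or_ge (Nat.card (aug B q)) (Nat.card (B → Z q)) with h | h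
    · exact h
    · exfalso
      have htop := Subgroup.eq_top_of_le_card _ h
      have : (fun x : B => if x = 1 then (Multiplicative.ofAdd (1 : ZMod q)) else 1) ∈ aug B q := by
        rw [htop]; trivial
      rw [mem_aug] at this
      simp at this
  -- the constants are in the augmentation subgroup
  have hconst : ∀ z : Z q, ∏ _x : B, z = 1 := by
    intro z
    rw [Finset.prod_const, Finset.card_univ, ← Nat.card_eq_fintype_card]
    obtain ⟨k, hk⟩ := hB
    rw [hk, pow_mul]
    have : z ^ q = 1 := by
      have := pow_card_eq_one' (x := z)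
      rwa [card_Z] at this
    rw [this, one_pow]
  -- the cocycle attached to a function
  let s0 : (B → Z q) → B → Z q := fun s => Function.update s 1 1
  let ex : Z q → Z q → Z q := fun a b => Multiplicative.ofAdd (a.toAdd * b.toAdd)
  have ex_mul : ∀ a b c, ex (a * b) c = ex a c * ex b c := by
    intro a b c
    apply Multiplicative.toAdd.injective
    simp [ex, add_mul]
  have ex_one : ∀ c, ex 1 c = 1 := by
    intro c
    apply Multiplicative.toAdd.injective
    simp [ex]
  let γ : (B → Z q) → G → B → Z q := fun s g x =>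
    s0 s ((φ.1 g)⁻¹ * x) * (s0 s x)⁻¹ * ex (χ.1 g) (s 1)
  have hγ : ∀ s g, γ s g ∈ aug B q := by
    intro s g
    rw [mem_aug]
    simp only [γ]
    rw [Finset.prod_mul_distrib, Finset.prod_mul_distrib, Finset.prod_inv_distrib, hconst]
    have := prod_trans B q (φ.1 g) (s0 s)
    simp only [trans_apply] at this
    rw [this]
    simp
  have hmul : ∀ s g h x, γ s (g * h) x = γ s g x * γ s h ((φ.1 g)⁻¹ * x) := by
    intro s g h x
    simp only [γ, map_mul, ex_mul]
    have : (φ.1 g * φ.1 h)⁻¹ * x = (φ.1 h)⁻¹ * ((φ.1 g)⁻¹ * x) := by group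
    rw [this]
    generalize s0 s ((φ.1 h)⁻¹ * ((φ.1 g)⁻¹ * x)) = a
    generalize s0 s ((φ.1 g)⁻¹ * x) = b
    generalize s0 s x = c
    generalize ex (χ.1 g) (s 1) = d
    generalize ex (χ.1 h) (s 1) = e
    calc a * c⁻¹ * (d * e) = (b * b⁻¹) * (a * c⁻¹ * (d * e)) := by rw [mul_inv_cancel, one_mul]
      _ = b * c⁻¹ * d * (a * b⁻¹ * e) := by
        simp only [mul_comm, mul_left_comm, mul_assoc]
  let Φ : (B → Z q) → (G →* (aug B q) ⋊[transAug B q] B) := fun s =>
    { toFun := fun g => ⟨⟨γ s g, hγ s g⟩, φ.1 g⟩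
      map_one' := by
        apply SemidirectProduct.ext
        · apply Subtype.ext; funext x
          change γ s 1 x = 1
          simp [γ, ex_one]
        · change φ.1 1 = 1
          exact map_one _
      map_mul' := fun g h => by
        apply SemidirectProduct.ext
        · apply Subtype.ext; funext x
          exact hmul s g h x
        · exact map_mul φ.1 g h }
  have hΦ : ∀ s, IsOpen ((Φ s).ker : Set G) := by
    intro s
    refine Subgroup.isOpen_mono (H₁ := φ.1.ker ⊓ χ.1.ker) ?_ ?_
    · intro g hg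
      obtain ⟨hg1, hg2⟩ := Subgroup.mem_inf.mp hg
      rw [MonoidHom.mem_ker] at hg1 hg2 ⊢
      apply SemidirectProduct.ext
      · apply Subtype.ext; funext x
        change γ s g x = 1
        simp [γ, hg1, hg2, ex_one]
      · exact hg1
    · rw [Subgroup.coe_inf]
      exact φ.2.inter χ.2
  let Ψ : (B → Z q) → {φ' : CH G ((aug B q) ⋊[transAug B q] B) // cmap π φ' = φ} := fun s =>
    ⟨⟨Φ s, hΦ s⟩, by apply ch_ext; intro x; rfl⟩
  have hinj : Injective Ψ := by
    intro s t hst
    have hval : ∀ g x, γ s g x = γ t g x := by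
      intro g x
      have := congrArg (fun ψ : {φ' : CH G ((aug B q) ⋊[transAug B q] B) // cmap π φ' = φ} =>
        ((ψ.1.1 g).left : aug B q).1 x) hst
      exact this
    have h11 : s 1 = t 1 := by
      have := hval u 1
      simp only [γ, hu, inv_one, one_mul, mul_inv_cancel] at this
      have h4 : (χ.1 u).toAdd * (s 1).toAdd = (χ.1 u).toAdd * (t 1).toAdd := this
      have h5 : (χ.1 u).toAdd ≠ 0 := fun h => hχ (Multiplicative.toAdd.injective h)
      exact Multiplicative.toAdd.injective (mul_left_cancel₀ h5 h4)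
    funext x
    by_cases hx : x = 1
    · rw [hx, h11]
    · obtain ⟨g, hg⟩ := hφ x⁻¹
      have := hval g 1
      simp only [γ, hg, inv_inv, mul_one, h11] at this
      have h6 : s0 s x * (s0 s 1)⁻¹ = s0 t x * (s0 t 1)⁻¹ := mul_right_cancel this
      simpa [s0, hx] using h6
  have := R.fin ((aug B q) ⋊[transAug B q] B)
  have h7 := Nat.card_le_card_of_injective Ψ hinj
  omega

/-- If `hh G (Z q) = q`, then `G` has no nonabelian simple quotient of order divisible by `q`. -/
theorem no_simple_quot (R : Reg G) {q : ℕ} (hq : q.Prime) (h1 : hh G (Z q) = q)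
    {B : Type} [Group B] [Finite B] [IsSimpleGroup B] (hB : q ∣ Nat.card B)
    (hnc : ∃ a b : B, a * b ≠ b * a) (φ : CH G B) : ¬ Surjective φ.1 := by
  intro hφ
  have : NeZero q := ⟨hq.ne_zero⟩
  have hfin := R.fin (Z q)
  -- a nontrivial homomorphism to `Z q`
  have hne : ∃ χ : CH G (Z q), χ ≠ 1 := by
    by_contra hcon
    push Not at hcon
    have : Subsingleton (CH G (Z q)) := ⟨fun a b => by rw [hcon a, hcon b]⟩
    have h2 : hh G (Z q) ≤ 1 := Finite.card_le_one_iff_subsingleton.mpr this
    rw [h1] at h2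
    exact absurd hq.two_le (by omega)
  obtain ⟨χ, hχ⟩ := hne
  by_cases hu : ∃ u : G, φ.1 u = 1 ∧ χ.1 u ≠ 1
  · obtain ⟨u, hu1, hu2⟩ := hu
    exact no_surj_aux R hq h1 hB φ hφ χ u hu1 hu2
  · push Not at hu
    -- `χ` factors through `B`
    have hker : φ.1.ker ≤ χ.1.ker := fun g hg => hu g hg
    let χ' : B →* Z q := φ.1.liftOfSurjective hφ ⟨χ.1, hker⟩
    have hχ' : ∀ g, χ' (φ.1 g) = χ.1 g := fun g =>
      MonoidHom.liftOfRightInverse_comp_apply _ _ _ ⟨χ.1, hker⟩ g
    rcases Subgroup.Normal.eq_bot_or_eq_top (H := χ'.ker) inferInstance with hb | ht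
    · have hinj : Injective χ' := (MonoidHom.ker_eq_bot_iff χ').mp hb
      obtain ⟨a, b, hab⟩ := hnc
      apply hab
      apply hinj
      rw [map_mul, map_mul, mul_comm]
    · apply hχ
      apply ch_ext
      intro g
      rw [← hχ' g]
      have : φ.1 g ∈ χ'.ker := by rw [ht]; trivial
      rw [MonoidHom.mem_ker] at this
      rw [this]; rfl

/-- If `hh G (Z q) = q` for all primes `q` dividing the order of `B`, then `hh G B = |B|`. -/
theorem hh_eq_card_aux (R : Reg G) (k : ℕ) : ∀ (B : Type) [Group B] [Finite B],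
    Nat.card B = k → (∀ q : ℕ, q.Prime → q ∣ k → hh G (Z q) = q) → hh G B = k := by
  induction k using Nat.strong_induction_on with
  | _ k ih =>
  intro B _ _ hB hq
  by_cases hsub : Subsingleton B
  · rw [hh_subsingleton, ← hB]
    exact (Nat.card_eq_one_iff_unique.mpr ⟨hsub, ⟨1⟩⟩).symm
  have hnt : Nontrivial B := not_subsingleton_iff_nontrivial.mp hsub
  have hk0 : 0 < k := by rw [← hB]; exact Nat.card_pos
  by_cases hN : ∃ N : Subgroup B, N.Normal ∧ N ≠ ⊥ ∧ N ≠ ⊤
  · obtain ⟨N, hNn, hNb, hNt⟩ := hN
    have hc := Subgroup.card_eq_card_quotient_mul_card_subgroup N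
    rw [hB] at hc
    have h1 : 1 < Nat.card N := (Subgroup.one_lt_card_iff_ne_bot N).mpr hNb
    have h2 : Nat.card N < k := by
      by_contra hcon
      push Not at hcon
      rw [← hB] at hcon
      exact hNt (Subgroup.eq_top_of_le_card _ hcon)
    have h3 : 0 < Nat.card (B ⧸ N) := Nat.card_pos
    have h4 : Nat.card (B ⧸ N) < k := by rw [hc]; nlinarith
    rw [R.mul_quot N, ih _ h4 (B ⧸ N) rfl (fun q hq1 hq2 => hq q hq1 (by
        rw [hc]; exact hq2.mul_right _)), ih _ h2 N rfl (fun q hq1 hq2 => hq q hq1 (by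
        rw [hc]; exact hq2.mul_left _))]
    exact hc.symm
  · push Not at hN
    have hsimple : IsSimpleGroup B := ⟨fun N hNn => by
      by_cases hNb : N = ⊥
      · exact Or.inl hNb
      · exact Or.inr (hN N hNn hNb)⟩
    obtain ⟨q, hq1, hq2⟩ := Nat.exists_prime_and_dvd (n := k) (by
      rw [← hB]
      have := (Finite.one_lt_card_iff_nontrivial (α := B)).mpr hnt
      omega)
    by_cases hcomm : ∀ a b : B, a * b = b * a
    · let _ : CommGroup B := { (inferInstance : Group B) with mul_comm := hcomm }
      have h5 := R.comm B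
      rw [h5, hB, cc_eq_pow 1 k hk0.ne', pow_one]
      intro r hr hrd
      rw [hq r hr hrd, pow_one]
    · push Not at hcomm
      have hns := no_simple_quot R hq1 (hq q hq1 hq2) (by rw [hB]; exact hq2) hcomm
      have hcount := count_family_one R {A : Subgroup B | A ≠ ⊤} (fun A A' hAA hA' hA => by
        apply hA'
        rw [hA] at hAA
        exact top_le_iff.mp hAA) (fun A hA => by
        have hA' : A ≠ ⊤ := hA
        have h2 : Nat.card A < k := by
          by_contra hcon
          push Not at hcon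
          rw [← hB] at hcon
          exact hA' (Subgroup.eq_top_of_le_card _ hcon)
        have h3 : Nat.card A ∣ k := by rw [← hB]; exact Subgroup.card_subgroup_dvd_card A
        exact ih _ h2 A rfl (fun q hq1 hq2 => hq q hq1 (hq2.trans h3)))
      have h6 : ∀ φ : CH G B, φ.1.range ≠ ⊤ := fun φ h => hns φ (MonoidHom.range_eq_top.mp h)
      have h7 : ∀ x : B, Subgroup.zpowers x ≠ ⊤ := by
        intro x hx
        obtain ⟨a, b, hab⟩ := hcomm
        apply hab
        have ha : a ∈ Subgroup.zpowers x := by rw [hx]; trivial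
        have hb : b ∈ Subgroup.zpowers x := by rw [hx]; trivial
        obtain ⟨i, rfl⟩ := ha
        obtain ⟨j, rfl⟩ := hb
        exact (Commute.zpow_zpow (Commute.refl x) i j).eq
      have e1 : Nat.card {φ : CH G B // φ.1.range ∈ {A : Subgroup B | A ≠ ⊤}} = hh G B :=
        Nat.card_congr (Equiv.subtypeUnivEquiv h6)
      have e2 : Nat.card {x : B // Subgroup.zpowers x ∈ {A : Subgroup B | A ≠ ⊤}} = Nat.card B :=
        Nat.card_congr (Equiv.subtypeUnivEquiv h7)
      rw [← e1, hcount, e2, hB]

theorem hh_eq_card (R : Reg G) (B : Type) [Group B] [Finite B]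
    (h : ∀ q : ℕ, q.Prime → q ∣ Nat.card B → hh G (Z q) = q) : hh G B = Nat.card B :=
  hh_eq_card_aux R _ B rfl h

end Pool.Agent.H21.Prof
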