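import Pool.Agent.H21.Prof.Setup

set_option autoImplicit false

namespace Pool.Agent.H21.Prof

open Function

variable {G : Type} [Group G] [TopologicalSpace G] [IsTopologicalGroup G]

section grp
variable {K : Type} [Group K] [Finite K] {p : ℕ} [hp : Fact p.Prime]

theorem sylow_card (hpK : p ∣ Nat.card K) (hp2 : ¬ p ^ 2 ∣ Nat.card K) (P : Sylow p K) :
    Nat.card P = p := by
  rw [P.card_eq_multiplicity]
  have h1 : (Nat.card K).factorization p = 1 := by
    apply le_antisymm
    · by_contra hcon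
      push Not at hcon
      exact hp2 ((hp.out.pow_dvd_iff_le_factorization Nat.card_pos.ne').mpr hcon)
    · exact (hp.out.dvd_iff_one_le_factorization Nat.card_pos.ne').mp hpK
  rw [h1, pow_one]

/-- An element of order `p` normalising `P` generates `P`. -/
theorem sylow_eq_zpowers (hpK : p ∣ Nat.card K) (hp2 : ¬ p ^ 2 ∣ Nat.card K) (P : Sylow p K)
    {y : K} (hy : orderOf y = p) (hyN : y ∈ Subgroup.normalizer (P : Set K)) :
    (P : Subgroup K) = Subgroup.zpowers y := by
  have hc : Nat.card (Subgroup.zpowers y) = p := by rw [Nat.card_zpowers, hy]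
  have hpg : IsPGroup p (Subgroup.zpowers y) :=
    IsPGroup.of_card (n := 1) (by rw [hc, pow_one])
  have h1 := hpg.inf_normalizer_sylow P
  have h2 : y ∈ Subgroup.zpowers y ⊓ (P : Subgroup K) := by
    rw [← h1]
    exact ⟨Subgroup.mem_zpowers y, hyN⟩
  symm
  apply Subgroup.eq_of_le_of_card_ge
  · rw [Subgroup.zpowers_le]
    exact h2.2
  · rw [hc]
    exact (sylow_card hpK hp2 P).le

/-- Some power of an element of order divisible by `p` has order `p`. -/
theorem exists_pow_order {x : K} (hx : p ∣ orderOf x) : ∃ k : ℕ, orderOf (x ^ k) = p := by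
  obtain ⟨k, hk⟩ := hx
  refine ⟨k, ?_⟩
  have h0 : 0 < orderOf x := orderOf_pos x
  have hk0 : k ≠ 0 := by
    rintro rfl
    omega
  rw [orderOf_pow_of_dvd hk0 (by rw [hk]; exact Dvd.intro_left p rfl), hk]
  exact Nat.mul_div_cancel _ (Nat.pos_of_ne_zero hk0)

theorem sum_normalizer [Fintype (Sylow p K)] :
    ∑ P : Sylow p K, Nat.card (Subgroup.normalizer (P : Set K)) = Nat.card K := by
  have h1 : ∀ P : Sylow p K, Nat.card (Sylow p K) * Nat.card (Subgroup.normalizer (P : Set K)) =
      Nat.card K := by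
    intro P
    rw [P.card_eq_index_normalizer, mul_comm, Subgroup.card_mul_index]
  have h2 : Nat.card (Sylow p K) * ∑ P : Sylow p K, Nat.card (Subgroup.normalizer (P : Set K)) =
      Nat.card (Sylow p K) * Nat.card K := by
    rw [Finset.mul_sum, Finset.sum_congr rfl (fun P _ => h1 P)]
    simp
  have h3 : 0 < Nat.card (Sylow p K) := Nat.card_pos
  exact Nat.eq_of_mul_eq_mul_left h3 h2

/-- Every element of order divisible by `p` normalises a Sylow subgroup. -/
theorem sum_singular (hpK : p ∣ Nat.card K) (hp2 : ¬ p ^ 2 ∣ Nat.card K)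
    [Fintype (Sylow p K)] :
    Nat.card {x : K // p ∣ orderOf x} ≤
      ∑ P : Sylow p K, Nat.card {x : K // x ∈ Subgroup.normalizer (P : Set K) ∧ p ∣ orderOf x} := by
  rw [← Nat.card_sigma]
  have hex : ∀ x : {x : K // p ∣ orderOf x}, ∃ P : Sylow p K,
      x.1 ∈ Subgroup.normalizer (P : Set K) := by
    rintro ⟨x, hx⟩
    obtain ⟨k, hk⟩ := exists_pow_order hx
    have hc : Nat.card (Subgroup.zpowers (x ^ k)) = p := by rw [Nat.card_zpowers, hk]
    have hpg : IsPGroup p (Subgroup.zpowers (x ^ k)) :=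
      IsPGroup.of_card (n := 1) (by rw [hc, pow_one])
    obtain ⟨P, hP⟩ := hpg.exists_le_sylow
    refine ⟨P, ?_⟩
    have hPe : (P : Subgroup K) = Subgroup.zpowers (x ^ k) := by
      symm
      apply Subgroup.eq_of_le_of_card_ge hP
      rw [hc]
      exact (sylow_card hpK hp2 P).le
    have h3 : (P : Set K) = ((Subgroup.zpowers (x ^ k) : Subgroup K) : Set K) := by
      rw [← hPe]; rfl
    rw [h3, Subgroup.mem_normalizer_iff]
    intro h
    constructor
    · rintro ⟨i, rfl⟩
      refine ⟨i, ?_⟩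
      have hc : Commute x ((x ^ k) ^ i) := ((Commute.refl x).pow_right k).zpow_right i
      change (x ^ k) ^ i = x * (x ^ k) ^ i * x⁻¹
      rw [hc.eq, mul_inv_cancel_right]
    · rintro ⟨i, hi⟩
      refine ⟨i, ?_⟩
      have hc : Commute x ((x ^ k) ^ i) := ((Commute.refl x).pow_right k).zpow_right i
      change (x ^ k) ^ i = x * h * x⁻¹ at hi
      change (x ^ k) ^ i = h
      have : h = x⁻¹ * (x ^ k) ^ i * x := by rw [hi]; group
      rw [this, mul_assoc, ← hc.eq, inv_mul_cancel_left]
  choose Q hQ using hex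
  apply Nat.card_le_card_of_injective
    (fun x : {x : K // p ∣ orderOf x} =>
      (⟨Q x, ⟨x.1, hQ x, x.2⟩⟩ : Σ P : Sylow p K,
        {x : K // x ∈ Subgroup.normalizer (P : Set K) ∧ p ∣ orderOf x}))
  intro x y hxy
  have h1 : (⟨Q x, ⟨x.1, hQ x, x.2⟩⟩ : Σ P : Sylow p K,
        {x : K // x ∈ Subgroup.normalizer (P : Set K) ∧ p ∣ orderOf x}).2.1 =
      (⟨Q y, ⟨y.1, hQ y, y.2⟩⟩ : Σ P : Sylow p K,
        {x : K // x ∈ Subgroup.normalizer (P : Set K) ∧ p ∣ orderOf x}).2.1 := by
    have : ∀ a b : (Σ P : Sylow p K,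
        {x : K // x ∈ Subgroup.normalizer (P : Set K) ∧ p ∣ orderOf x}), a = b → a.2.1 = b.2.1 := by
      rintro a b rfl; rfl
    exact this _ _ hxy
  exact Subtype.ext h1

end grp

theorem card_split {W : Type} [Finite W] (q : W → Prop) :
    Nat.card {x : W // ¬ q x} + Nat.card {x : W // q x} = Nat.card W := by
  classical
  have := Fintype.ofFinite W
  simp only [Nat.card_eq_fintype_card, Fintype.card_subtype]
  have := Finset.card_filter_add_card_filter_not (s := (Finset.univ : Finset W)) (p := q)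
  rw [add_comm, this]
  simp

/-- The Sylow bound: if `p` divides `|K|` exactly once, `G` has rank two at `p` and rank one at
all other primes dividing `|K|`, then there are at least `p|K|` homomorphisms. -/
theorem sylow_bound (R : Reg G) {K : Type} [Group K] [Finite K] {p : ℕ} (hp : p.Prime)
    (hpK : p ∣ Nat.card K) (hp2 : ¬ p ^ 2 ∣ Nat.card K) (h2 : hh G (Z p) = p ^ 2)
    (h1 : ∀ q : ℕ, q.Prime → q ∣ Nat.card K → q ≠ p → hh G (Z q) = q) :
    p * Nat.card K ≤ hh G K := by
  classical
  have : Fact p.Prime := ⟨hp⟩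
  have := Fintype.ofFinite (Sylow p K)
  have hfin := R.fin K
  -- homomorphisms with image of order prime to `p`
  have hB : ∀ B : Subgroup K, ¬ p ∣ Nat.card B → hh G B = Nat.card B := by
    intro B hB
    apply hh_eq_card R
    intro q hq hqB
    exact h1 q hq (hqB.trans (Subgroup.card_subgroup_dvd_card B)) (fun h => hB (h ▸ hqB))
  have hz : ∀ x : K, Nat.card (Subgroup.zpowers x) = orderOf x := fun x => Nat.card_zpowers x
  have e0 : Nat.card {φ : CH G K // ¬ p ∣ Nat.card φ.1.range} =
      Nat.card {x : K // ¬ p ∣ orderOf x} := by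
    have := count_family_one R {B : Subgroup K | ¬ p ∣ Nat.card B}
      (fun A B hAB hB hA => hB (hA.trans (Subgroup.card_dvd_of_le hAB))) (fun B hB' => hB B hB')
    simp only [Set.mem_ofPred_eq, hz] at this
    exact this
  -- homomorphisms into normalizers
  have e1 : ∀ P : Sylow p K, Nat.card {φ : CH G K // φ.1.range ≤ Subgroup.normalizer (P : Set K) ∧
      p ∣ Nat.card φ.1.range} = (p - 1) * Nat.card (Subgroup.normalizer (P : Set K)) +
      Nat.card {x : K // x ∈ Subgroup.normalizer (P : Set K) ∧ p ∣ orderOf x} := by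
    intro P
    set N := Subgroup.normalizer (P : Set K) with hN
    have hPN : (P : Subgroup K) ≤ N := Subgroup.le_normalizer
    have hcardP := sylow_card hpK hp2 P
    -- total number
    have hPn : ((P : Subgroup K).subgroupOf N).Normal := by
      rw [hN]
      exact Subgroup.normal_in_normalizer
    have hc1 : Nat.card ((P : Subgroup K).subgroupOf N) = p := by
      rw [Nat.card_congr (Subgroup.subgroupOfEquivOfLe hPN).toEquiv]
      exact hcardP
    have hc2 := Subgroup.card_eq_card_quotient_mul_card_subgroup ((P : Subgroup K).subgroupOf N)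
    rw [hc1] at hc2
    have hNK : Nat.card N ∣ Nat.card K := Subgroup.card_subgroup_dvd_card N
    have hc3 : ¬ p ∣ Nat.card (N ⧸ (P : Subgroup K).subgroupOf N) := by
      rintro ⟨c, hc⟩
      apply hp2
      refine dvd_trans ⟨c, ?_⟩ hNK
      rw [hc2, hc]; ring
    have htot : hh G N = p * Nat.card N := by
      rw [R.mul_quot ((P : Subgroup K).subgroupOf N), hh_prime hp hc1, h2,
        hh_eq_card R (N ⧸ (P : Subgroup K).subgroupOf N), hc2]
      · ring
      · intro q hq hqd
        apply h1 q hq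
        · refine dvd_trans (hqd.trans ?_) hNK
          rw [hc2]; exact Dvd.intro _ rfl
        · rintro rfl
          exact hc3 hqd
    rw [hh_sub] at htot
    -- the part prime to `p`
    have hF := count_family_one R {B : Subgroup K | B ≤ N ∧ ¬ p ∣ Nat.card B}
      (fun A B hAB hB => ⟨hAB.trans hB.1, fun hA => hB.2 (hA.trans (Subgroup.card_dvd_of_le hAB))⟩)
      (fun B hB' => hB B hB'.2)
    simp only [Set.mem_ofPred_eq, hz, Subgroup.zpowers_le] at hF
    -- splitting
    have s1 := card_split (W := {φ : CH G K // φ.1.range ≤ N}) (fun φ => p ∣ Nat.card φ.1.1.range)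
    have s2 := card_split (W := {x : K // x ∈ N}) (fun x => p ∣ orderOf x.1)
    have t1 : Nat.card {φ : {φ : CH G K // φ.1.range ≤ N} // p ∣ Nat.card φ.1.1.range} =
        Nat.card {φ : CH G K // φ.1.range ≤ N ∧ p ∣ Nat.card φ.1.range} :=
      Nat.card_congr (Equiv.subtypeSubtypeEquivSubtypeInter _ (fun φ : CH G K =>
        p ∣ Nat.card φ.1.range))
    have t2 : Nat.card {φ : {φ : CH G K // φ.1.range ≤ N} // ¬ p ∣ Nat.card φ.1.1.range} =
        Nat.card {φ : CH G K // φ.1.range ≤ N ∧ ¬ p ∣ Nat.card φ.1.range} :=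
      Nat.card_congr (Equiv.subtypeSubtypeEquivSubtypeInter _ (fun φ : CH G K =>
        ¬ p ∣ Nat.card φ.1.range))
    have t3 : Nat.card {x : {x : K // x ∈ N} // p ∣ orderOf x.1} =
        Nat.card {x : K // x ∈ N ∧ p ∣ orderOf x} :=
      Nat.card_congr (Equiv.subtypeSubtypeEquivSubtypeInter _ (fun x : K => p ∣ orderOf x))
    have t4 : Nat.card {x : {x : K // x ∈ N} // ¬ p ∣ orderOf x.1} =
        Nat.card {x : K // x ∈ N ∧ ¬ p ∣ orderOf x} :=
      Nat.card_congr (Equiv.subtypeSubtypeEquivSubtypeInter _ (fun x : K => ¬ p ∣ orderOf x))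
    have t5 : Nat.card {x : K // x ∈ N} = Nat.card N := rfl
    rw [t1, t2, htot, hF] at s1
    rw [t3, t4, t5] at s2
    have hp1 : p * Nat.card N = (p - 1) * Nat.card N + Nat.card N := by
      obtain ⟨r, hr⟩ : ∃ r, p = r + 1 := ⟨p - 1, by have := hp.pos; omega⟩
      rw [hr]; simp; ring
    omega
  -- homomorphisms with image of order divisible by `p`
  have e2 : ∑ P : Sylow p K, Nat.card {φ : CH G K //
      φ.1.range ≤ Subgroup.normalizer (P : Set K) ∧ p ∣ Nat.card φ.1.range} ≤
      Nat.card {φ : CH G K // p ∣ Nat.card φ.1.range} := by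
    rw [← Nat.card_sigma]
    apply Nat.card_le_card_of_injective
      (fun x : (Σ P : Sylow p K, {φ : CH G K //
        φ.1.range ≤ Subgroup.normalizer (P : Set K) ∧ p ∣ Nat.card φ.1.range}) =>
        (⟨x.2.1, x.2.2.2⟩ : {φ : CH G K // p ∣ Nat.card φ.1.range}))
    rintro ⟨P, φ, hφ1, hφ2⟩ ⟨Q, ψ, hψ1, hψ2⟩ hxy
    have hφψ : φ = ψ := congrArg Subtype.val hxy
    subst hφψ
    have hPQ : P = Q := by
      obtain ⟨y, hy⟩ := exists_prime_orderOf_dvd_card' (G := φ.1.range) p hφ2
      have hy' : orderOf (y : K) = p := by rw [Subgroup.orderOf_coe]; exact hy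
      apply Sylow.ext
      rw [sylow_eq_zpowers hpK hp2 P hy' (hφ1 y.2), sylow_eq_zpowers hpK hp2 Q hy' (hψ1 y.2)]
    subst hPQ
    rfl
  have s1 := card_split (W := CH G K) (fun φ => p ∣ Nat.card φ.1.range)
  have s2 := card_split (W := K) (fun x => p ∣ orderOf x)
  rw [Finset.sum_congr rfl (fun P _ => e1 P), Finset.sum_add_distrib, ← Finset.mul_sum,
    sum_normalizer] at e2
  have e3 := sum_singular hpK hp2
  have hp1 : p * Nat.card K = (p - 1) * Nat.card K + Nat.card K := by
    obtain ⟨r, hr⟩ : ∃ r, p = r + 1 := ⟨p - 1, by have := hp.pos; omega⟩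
    rw [hr]; simp; ring
  change Nat.card {φ : CH G K // ¬ p ∣ Nat.card φ.1.range} + _ = hh G K at s1
  omega

end Pool.Agent.H21.Prof
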